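import Mathlib

/-!
Two finite identities (in a field where small naturals are nonzero).
-/

open Finset

namespace Pool.Agent.Helper10.SC

section
variable {K : Type*} [Field K]

/-- `c n k = (-1)^k C(n,k) C(n+k,k)` -/
def cc (K : Type*) [Field K] (n k : ℕ) : K :=
  (-1) ^ k * (n.choose k : K) * ((n + k).choose k : K)

/-- harmonic sums `∑_{i=1}^n 1/i^s` in a field -/
def hs (K : Type*) [Field K] (s n : ℕ) : K := ∑ i ∈ range n, (((i + 1 : ℕ) : K) ^ s)⁻¹

lemma hs_succ (s n : ℕ) : hs K s (n + 1) = hs K s n + (((n + 1 : ℕ) : K) ^ s)⁻¹ := by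
  simp [hs, sum_range_succ]

lemma hs_zero (s : ℕ) : hs K s 0 = 0 := by simp [hs]

lemma choose_up_k (n k : ℕ) (h : k ≤ n + 1) :
    ((n + 1).choose k : K) * (n + 1 - k) = (n + 1) * (n.choose k : K) := by
  have h1 := Nat.choose_mul_succ_eq n k
  have h3 : ((n.choose k * (n + 1) : ℕ) : K) = (((n + 1).choose k * (n + 1 - k) : ℕ) : K) := by
    rw [h1]
  rw [Nat.cast_mul, Nat.cast_mul, Nat.cast_sub (by omega)] at h3
  push_cast at h3
  linear_combination -h3

lemma choose_right_k (n k : ℕ) (h : k ≤ n) :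
    (n.choose (k + 1) : K) * (k + 1) = (n - k) * (n.choose k : K) := by
  have h1 := Nat.choose_succ_right_eq n k
  have h3 : ((n.choose (k + 1) * (k + 1) : ℕ) : K) = ((n.choose k * (n - k) : ℕ) : K) := by
    rw [h1]
  rw [Nat.cast_mul, Nat.cast_mul, Nat.cast_sub h] at h3
  push_cast at h3
  linear_combination h3

lemma cc_succ_right (n k : ℕ) (h : k ≤ n) :
    cc K n (k + 1) * (k + 1) ^ 2 = -(cc K n k * (n - k) * (n + k + 1)) := by
  unfold cc
  have e1 := choose_right_k (K := K) n k h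
  have e2 : ((n + (k + 1)).choose (k + 1) : K) * (k + 1) = (n + k + 1) * ((n + k).choose k : K) := by
    have := Nat.add_one_mul_choose_eq (n + k) k
    have h3 : (((n + k + 1) * (n + k).choose k : ℕ) : K)
        = (((n + k + 1).choose (k + 1) * (k + 1) : ℕ) : K) := by rw [this]
    push_cast at h3
    rw [show n + (k + 1) = n + k + 1 from rfl]
    linear_combination -h3
  have : (-1 : K) ^ (k + 1) * (n.choose (k + 1) : K) * ((n + (k + 1)).choose (k + 1) : K)
      * (k + 1) ^ 2 = (-1 : K) ^ (k + 1) * ((n.choose (k + 1) : K) * (k + 1)) *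
      (((n + (k + 1)).choose (k + 1) : K) * (k + 1)) := by ring
  rw [this, e1, e2]
  ring

lemma cc_succ_left (n k : ℕ) (h : k ≤ n + 1) (hn : ((n + 1 : ℕ) : K) ≠ 0) :
    cc K (n + 1) k * (n + 1 - k) = cc K n k * (n + 1 + k) := by
  unfold cc
  have e1 := choose_up_k (K := K) n k h
  have e2 := choose_up_k (K := K) (n + k) k (by omega)
  rw [show n + 1 + k = n + k + 1 by omega]
  push_cast at e2 hn
  have e3 : ((n + k + 1).choose k : K) * (n + 1) = (n + k + 1) * ((n + k).choose k : K) := by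
    linear_combination e2
  apply mul_right_cancel₀ hn
  linear_combination (-1 : K) ^ k * ((n + k + 1).choose k : K) * (n + 1) * e1 +
    (-1 : K) ^ k * (n + 1) * (n.choose k : K) * e3

lemma cc_zero (n : ℕ) : cc K n 0 = 1 := by simp [cc]

lemma cc_of_lt {n k : ℕ} (h : n < k) : cc K n k = 0 := by simp [cc, Nat.choose_eq_zero_of_lt h]

/-- partial sums -/
lemma sum_cc_partial (n m : ℕ) (hn : 1 ≤ n) (hm : m ≤ n)
    (hK : ∀ a : ℕ, 1 ≤ a → a ≤ 2 * n → (a : K) ≠ 0) :
    (∑ k ∈ range (m + 1), cc K n k * ((n + k : ℕ) : K)⁻¹) = cc K n m * (n - m) * ((n : K) ^ 2)⁻¹ := by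
  have hn0 : (n : K) ≠ 0 := hK n hn (by omega)
  induction m with
  | zero => simp [cc_zero]; field_simp
  | succ m ih =>
    rw [sum_range_succ, ih (by omega)]
    have e := cc_succ_right (K := K) n m (by omega)
    have h1 : ((m : K) + 1) ≠ 0 := by
      have := hK (m + 1) (by omega) (by omega)
      push_cast at this; exact this
    have h2 : ((n : K) + (m + 1)) ≠ 0 := by
      have := hK (n + (m + 1)) (by omega) (by omega)
      push_cast at this; exact this
    push_cast
    have e' : cc K n m * (n - m) * (n + m + 1) = -(cc K n (m + 1) * (m + 1) ^ 2) := by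
      linear_combination e
    have h3 : ((n : K) + m + 1) ≠ 0 := by
      intro h; apply h2; linear_combination h
    have e'' : cc K n m * (n - m) = -(cc K n (m + 1) * (m + 1) ^ 2) / (n + m + 1) := by
      field_simp
      linear_combination e'
    rw [e'']
    field_simp
    ring

/-- partial sums with weights `H_k^{(2)}` -/
lemma sum_cc_h_partial (n m : ℕ) (hn : 1 ≤ n) (hm : m ≤ n)
    (hK : ∀ a : ℕ, 1 ≤ a → a ≤ 2 * n → (a : K) ≠ 0) :
    (∑ k ∈ range (m + 1), cc K n k * hs K 2 k * ((n + k : ℕ) : K)⁻¹) =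
      cc K n m * (n - m) * ((n : K) ^ 2)⁻¹ * (hs K 2 m + ((n : K) ^ 2)⁻¹) - ((n : K) ^ 3)⁻¹ := by
  have hn0 : (n : K) ≠ 0 := hK n hn (by omega)
  induction m with
  | zero => simp [cc_zero, hs_zero]; field_simp; ring
  | succ m ih =>
    rw [sum_range_succ, ih (by omega), hs_succ]
    have e := cc_succ_right (K := K) n m (by omega)
    have h1 : ((m : K) + 1) ≠ 0 := by
      have := hK (m + 1) (by omega) (by omega)
      push_cast at this; exact this
    have h2 : ((n : K) + (m + 1)) ≠ 0 := by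
      have := hK (n + (m + 1)) (by omega) (by omega)
      push_cast at this; exact this
    push_cast
    have e' : cc K n m * (n - m) * (n + m + 1) = -(cc K n (m + 1) * (m + 1) ^ 2) := by
      linear_combination e
    have h3 : ((n : K) + m + 1) ≠ 0 := by
      intro h; apply h2; linear_combination h
    have e'' : cc K n m * (n - m) = -(cc K n (m + 1) * (m + 1) ^ 2) / (n + m + 1) := by
      field_simp
      linear_combination e'
    rw [e'']
    generalize hs K 2 m = x
    generalize cc K n (m + 1) = y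
    field_simp
    ring

/-- `∑_{k=1}^n c(n,k)/k = -2 H_n` -/
theorem sum_cc_div (n : ℕ) (hK : ∀ a : ℕ, 1 ≤ a → a ≤ 2 * n → (a : K) ≠ 0) :
    (∑ k ∈ range n, cc K n (k + 1) * ((k + 1 : ℕ) : K)⁻¹) = -2 * hs K 1 n := by
  induction n with
  | zero => simp [hs_zero]
  | succ n ih =>
    have ih := ih (fun a h1 h2 => hK a h1 (by omega))
    have h1 := sum_cc_partial (K := K) (n + 1) (n + 1) (by omega) le_rfl hK
    rw [sum_range_succ'] at h1
    have hn0 : ((n + 1 : ℕ) : K) ≠ 0 := hK _ (by omega) (by omega)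
    have key : ∀ k ∈ range (n + 1), cc K (n + 1) (k + 1) * ((k + 1 : ℕ) : K)⁻¹ =
        cc K n (k + 1) * ((k + 1 : ℕ) : K)⁻¹ +
          2 * (cc K (n + 1) (k + 1) * ((n + 1 + (k + 1) : ℕ) : K)⁻¹) := by
      intro k hk
      have hk' := mem_range.1 hk
      have e := cc_succ_left (K := K) n (k + 1) (by omega) hn0
      have a1 : ((k + 1 : ℕ) : K) ≠ 0 := hK _ (by omega) (by omega)
      have a2 : ((n + 1 + (k + 1) : ℕ) : K) ≠ 0 := hK _ (by omega) (by omega)
      push_cast at *
      have e' : cc K n (k + 1) = cc K (n + 1) (k + 1) * (n + 1 - (k + 1)) / (n + 1 + (k + 1)) := by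
        field_simp
        linear_combination -e
      rw [e']
      field_simp
      ring
    rw [sum_congr rfl key, sum_add_distrib, ← mul_sum]
    rw [sum_range_succ, cc_of_lt (show n < n + 1 by omega), zero_mul, add_zero, ih, hs_succ]
    have h2 : ∑ k ∈ range (n + 1), cc K (n + 1) (k + 1) * ((n + 1 + (k + 1) : ℕ) : K)⁻¹ =
        - ((n + 1 : ℕ) : K)⁻¹ := by
      rw [cc_zero] at h1
      push_cast at h1 ⊢
      linear_combination h1
    rw [h2]
    ring

/-- `∑_{k=1}^n c(n,k) H_k^{(2)} / k = -2 H_n^{(3)}` -/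
theorem sum_cc_h_div (n : ℕ) (hK : ∀ a : ℕ, 1 ≤ a → a ≤ 2 * n → (a : K) ≠ 0) :
    (∑ k ∈ range n, cc K n (k + 1) * hs K 2 (k + 1) * ((k + 1 : ℕ) : K)⁻¹) = -2 * hs K 3 n := by
  induction n with
  | zero => simp [hs_zero]
  | succ n ih =>
    have ih := ih (fun a h1 h2 => hK a h1 (by omega))
    have h1 := sum_cc_h_partial (K := K) (n + 1) (n + 1) (by omega) le_rfl hK
    rw [sum_range_succ'] at h1
    have hn0 : ((n + 1 : ℕ) : K) ≠ 0 := hK _ (by omega) (by omega)
    have key : ∀ k ∈ range (n + 1), cc K (n + 1) (k + 1) * hs K 2 (k + 1) * ((k + 1 : ℕ) : K)⁻¹ =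
        cc K n (k + 1) * hs K 2 (k + 1) * ((k + 1 : ℕ) : K)⁻¹ +
          2 * (cc K (n + 1) (k + 1) * hs K 2 (k + 1) * ((n + 1 + (k + 1) : ℕ) : K)⁻¹) := by
      intro k hk
      have hk' := mem_range.1 hk
      have e := cc_succ_left (K := K) n (k + 1) (by omega) hn0
      have a1 : ((k + 1 : ℕ) : K) ≠ 0 := hK _ (by omega) (by omega)
      have a2 : ((n + 1 + (k + 1) : ℕ) : K) ≠ 0 := hK _ (by omega) (by omega)
      push_cast at *
      have e' : cc K n (k + 1) = cc K (n + 1) (k + 1) * (n + 1 - (k + 1)) / (n + 1 + (k + 1)) := by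
        field_simp
        linear_combination -e
      rw [e']
      field_simp
      ring
    rw [sum_congr rfl key, sum_add_distrib, ← mul_sum]
    rw [sum_range_succ, cc_of_lt (show n < n + 1 by omega), zero_mul, zero_mul, add_zero, ih,
      hs_succ]
    have h2 : ∑ k ∈ range (n + 1), cc K (n + 1) (k + 1) * hs K 2 (k + 1) *
        ((n + 1 + (k + 1) : ℕ) : K)⁻¹ = - (((n + 1 : ℕ) : K) ^ 3)⁻¹ := by
      rw [hs_zero] at h1
      push_cast at h1 ⊢
      linear_combination h1
    rw [h2]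
    ring

end

end Pool.Agent.Helper10.SC
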