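import Mathlib
import Pool.Agent.Helper10.SC.Sums

/-!
Computations in `ZMod p`, `p = 2 N + 1`.
-/

open Finset Polynomial

namespace Pool.Agent.Helper10.SC

section
variable {p : ℕ} [hp : Fact p.Prime] {N : ℕ}

lemma nz (hpN : p = 2 * N + 1) (a : ℕ) (h1 : 1 ≤ a) (h2 : a ≤ 2 * N) : ((a : ℕ) : ZMod p) ≠ 0 := by
  rw [Ne, ZMod.natCast_eq_zero_iff]
  intro h
  have := Nat.le_of_dvd (by omega) h
  omega

lemma two_N (hpN : p = 2 * N + 1) : 2 * (N : ZMod p) + 1 = 0 := by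
  have h : ((2 * N + 1 : ℕ) : ZMod p) = 0 := by
    rw [← hpN]; exact ZMod.natCast_self p
  push_cast at h
  exact h

lemma sum_pow_range (hpN : p = 2 * N + 1) (l : ℕ) :
    (∑ j ∈ range (2 * N), (((j + 1 : ℕ) : ZMod p)) ^ l) = if 2 * N ∣ l then -1 else 0 := by
  have hp1 : p - 1 = 2 * N := by omega
  have h := FiniteField.sum_pow_units (ZMod p) l
  rw [ZMod.card, hp1] at h
  rw [← h]
  symm
  refine Finset.sum_bij' (fun (u : (ZMod p)ˣ) _ => (u : ZMod p).val - 1)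
    (fun j hj => Units.mk0 (((j + 1 : ℕ) : ZMod p)) (nz hpN _ (by omega)
      (by have := mem_range.1 hj; omega))) ?_ ?_ ?_ ?_ ?_
  · intro u _
    have h1 : (u : ZMod p).val ≠ 0 := by
      rw [Ne, ZMod.val_eq_zero]; exact u.ne_zero
    have h2 := ZMod.val_lt (u : ZMod p)
    rw [mem_range]; omega
  · intro j _; exact mem_univ _
  · intro u _
    have h1 : (u : ZMod p).val ≠ 0 := by
      rw [Ne, ZMod.val_eq_zero]; exact u.ne_zero
    apply Units.ext
    simp only [Units.val_mk0]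
    rw [Nat.sub_add_cancel (by omega)]
    exact ZMod.natCast_zmod_val _
  · intro j hj
    have hj' := mem_range.1 hj
    simp only [Units.val_mk0]
    rw [ZMod.val_natCast, Nat.mod_eq_of_lt (by omega)]
    omega
  · intro u _
    have h1 : (u : ZMod p).val ≠ 0 := by
      rw [Ne, ZMod.val_eq_zero]; exact u.ne_zero
    rw [Nat.sub_add_cancel (by omega), ZMod.natCast_zmod_val]

lemma pow_2N (hpN : p = 2 * N + 1) (x : ZMod p) (hx : x ≠ 0) : x ^ (2 * N) = 1 := by
  have := ZMod.pow_card_sub_one_eq_one hx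
  rwa [show p - 1 = 2 * N by omega] at this

/-- coefficient extraction -/
lemma coeff_extract (hpN : p = 2 * N + 1) (q : (ZMod p)[X]) (s : ℕ) (hs1 : 1 ≤ s)
    (hs2 : s < 2 * N) (hq : q.natDegree ≤ 2 * N) :
    (∑ j ∈ range (2 * N), q.eval (((j + 1 : ℕ) : ZMod p)) * ((((j + 1 : ℕ) : ZMod p)) ^ s)⁻¹)
      = - q.coeff s := by
  have h1 : ∀ j ∈ range (2 * N), q.eval (((j + 1 : ℕ) : ZMod p)) *
      ((((j + 1 : ℕ) : ZMod p)) ^ s)⁻¹ =
      ∑ m ∈ range (2 * N + 1), q.coeff m * (((j + 1 : ℕ) : ZMod p)) ^ (m + (2 * N - s)) := by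
    intro j hj
    have hj' := mem_range.1 hj
    have hne := nz hpN (j + 1) (by omega) (by omega)
    have hpow := pow_2N hpN _ hne
    rw [Polynomial.eval_eq_sum_range' (show q.natDegree < 2 * N + 1 by omega), sum_mul]
    refine sum_congr rfl fun m _ => ?_
    have e : (((j + 1 : ℕ) : ZMod p)) ^ (m + (2 * N - s)) * (((j + 1 : ℕ) : ZMod p)) ^ s =
        (((j + 1 : ℕ) : ZMod p)) ^ m := by
      rw [← pow_add, show m + (2 * N - s) + s = m + 2 * N by omega, pow_add, hpow, mul_one]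
    rw [← e]
    field_simp
  rw [sum_congr rfl h1, sum_comm]
  have h2 : ∀ m ∈ range (2 * N + 1), (∑ j ∈ range (2 * N), q.coeff m *
      (((j + 1 : ℕ) : ZMod p)) ^ (m + (2 * N - s))) = if m = s then - q.coeff s else 0 := by
    intro m hm
    have hm' := mem_range.1 hm
    rw [← mul_sum, sum_pow_range hpN]
    by_cases h : m = s
    · subst h
      rw [if_pos rfl, if_pos ⟨1, by omega⟩]
      ring
    · rw [if_neg h, if_neg, mul_zero]
      rintro ⟨t, ht⟩
      have : t = 0 ∨ t = 1 ∨ 2 ≤ t := by omega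
      rcases this with rfl | rfl | h2
      · omega
      · omega
      · have : 2 * N * 2 ≤ 2 * N * t := Nat.mul_le_mul_left _ h2
        omega
  rw [sum_congr rfl h2, sum_ite_eq' (range (2 * N + 1)) s, if_pos (mem_range.2 (by omega))]

lemma split_sum (hpN : p = 2 * N + 1) (f : ZMod p → ZMod p) :
    (∑ j ∈ range (2 * N), f (((j + 1 : ℕ) : ZMod p))) =
      ∑ j ∈ range N, f (((j + 1 : ℕ) : ZMod p)) + ∑ l ∈ range N, f (-(((l + 1 : ℕ) : ZMod p))) := by
  rw [two_mul, sum_range_add]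
  congr 1
  rw [← sum_range_reflect]
  refine sum_congr rfl fun l hl => ?_
  have hl' := mem_range.1 hl
  congr 1
  have h2 := two_N hpN
  have e : N + (N - 1 - l) + 1 = 2 * N - l := by omega
  rw [e, Nat.cast_sub (by omega)]
  push_cast
  linear_combination h2

lemma two_ne (hpN : p = 2 * N + 1) (hN : 2 ≤ N) : (2 : ZMod p) ≠ 0 := by
  have := nz hpN 2 (by omega) (by omega)
  exact_mod_cast this

lemma hs_total (hpN : p = 2 * N + 1) (s : ℕ) (hs1 : 1 ≤ s) (hs2 : s < 2 * N) :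
    hs (ZMod p) s (2 * N) = 0 := by
  have h := coeff_extract hpN (1 : (ZMod p)[X]) s hs1 hs2 (by simp)
  rw [Polynomial.coeff_one, if_neg (by omega), neg_zero] at h
  rw [← h]
  simp [hs]

lemma hs_two_half (hpN : p = 2 * N + 1) (hN : 2 ≤ N) : hs (ZMod p) 2 N = 0 := by
  have h := hs_total hpN 2 (by omega) (by omega)
  have h2 := split_sum hpN (fun x => (x ^ 2)⁻¹)
  simp only [neg_sq] at h2
  have h3 : hs (ZMod p) 2 (2 * N) = hs (ZMod p) 2 N + hs (ZMod p) 2 N := by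
    unfold hs; exact h2
  rw [h3, ← two_mul] at h
  rcases mul_eq_zero.1 h with h | h
  · exact absurd h (two_ne hpN hN)
  · exact h

lemma hs_reflect (hpN : p = 2 * N + 1) (l : ℕ) (hl : l ≤ N) :
    hs (ZMod p) 1 (N + l) = hs (ZMod p) 1 (N - l) := by
  induction l with
  | zero => simp
  | succ l ih =>
    have ih := ih (by omega)
    have e1 : N - l = (N - (l + 1)) + 1 := by omega
    rw [e1, hs_succ] at ih
    rw [← add_assoc, hs_succ, ih]
    have h2 := two_N hpN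
    have a1 := nz hpN (N + l + 1) (by omega) (by omega)
    have a2 := nz hpN (N - (l + 1) + 1) (by omega) (by omega)
    have e : ((N + l + 1 : ℕ) : ZMod p) = -((N - (l + 1) + 1 : ℕ) : ZMod p) := by
      rw [← e1, Nat.cast_sub (by omega)]
      push_cast
      linear_combination h2
    rw [e, pow_one, pow_one, inv_neg]
    ring

lemma hs_reflect' (hpN : p = 2 * N + 1) (m : ℕ) (hm : m ≤ 2 * N) :
    hs (ZMod p) 1 (2 * N - m) = hs (ZMod p) 1 m := by
  rcases le_total m N with h | h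
  · have := hs_reflect hpN (N - m) (by omega)
    rw [show N + (N - m) = 2 * N - m by omega, show N - (N - m) = m by omega] at this
    exact this
  · have := hs_reflect hpN (m - N) (by omega)
    rw [show N + (m - N) = m by omega, show N - (m - N) = 2 * N - m by omega] at this
    exact this.symm

lemma hs_dup (hpN : p = 2 * N + 1) (l : ℕ) (hl : l ≤ N) :
    2 * hs (ZMod p) 1 (2 * l) = hs (ZMod p) 1 l + hs (ZMod p) 1 (N + l) - hs (ZMod p) 1 N := by
  induction l with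
  | zero => simp [hs_zero]
  | succ l ih =>
    have ih := ih (by omega)
    rw [show 2 * (l + 1) = 2 * l + 1 + 1 by ring, hs_succ, hs_succ, hs_succ, ← add_assoc N l 1,
      hs_succ]
    have h2 := two_N hpN
    have a1 := nz hpN (2 * l + 1) (by omega) (by omega)
    have a2 := nz hpN (2 * l + 1 + 1) (by omega) (by omega)
    have a3 := nz hpN (l + 1) (by omega) (by omega)
    have a4 := nz hpN (N + l + 1) (by omega) (by omega)
    have e1 : ((2 * l + 1 : ℕ) : ZMod p) = 2 * ((N + l + 1 : ℕ) : ZMod p) := by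
      push_cast; linear_combination -h2
    have e2 : ((2 * l + 1 + 1 : ℕ) : ZMod p) = 2 * ((l + 1 : ℕ) : ZMod p) := by
      push_cast; ring
    rw [e1] at a1
    rw [e2] at a2
    have a0 : (2 : ZMod p) ≠ 0 := fun h => a2 (by rw [h, zero_mul])
    rw [e1, e2]
    simp only [pow_one]
    generalize ((l + 1 : ℕ) : ZMod p) = x at *
    generalize ((N + l + 1 : ℕ) : ZMod p) = y at *
    rw [mul_add, mul_add, ih]
    field_simp
    ring

/-- `T = ∑_{x=1}^{p-1} H_x / x^2` -/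
def T0 (p N : ℕ) [Fact p.Prime] : ZMod p :=
  ∑ x ∈ range (2 * N), hs (ZMod p) 1 (x + 1) * ((((x + 1 : ℕ) : ZMod p)) ^ 2)⁻¹

lemma T0_half (hpN : p = 2 * N + 1) :
    T0 p N = 2 * (∑ l ∈ range N, hs (ZMod p) 1 (l + 1) * ((((l + 1 : ℕ) : ZMod p)) ^ 2)⁻¹)
      - hs (ZMod p) 3 N := by
  unfold T0
  rw [two_mul, sum_range_add]
  have h2 : ∑ x ∈ range N, hs (ZMod p) 1 (N + x + 1) * ((((N + x + 1 : ℕ) : ZMod p)) ^ 2)⁻¹ =
      (∑ l ∈ range N, hs (ZMod p) 1 (l + 1) * ((((l + 1 : ℕ) : ZMod p)) ^ 2)⁻¹)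
      - hs (ZMod p) 3 N := by
    rw [hs, ← sum_sub_distrib, ← sum_range_reflect]
    refine sum_congr rfl fun l hl => ?_
    have hl' := mem_range.1 hl
    have e : N + (N - 1 - l) + 1 = 2 * N - l := by omega
    rw [e, hs_reflect' hpN l (by omega)]
    have e2 : ((2 * N - l : ℕ) : ZMod p) = -((l + 1 : ℕ) : ZMod p) := by
      rw [Nat.cast_sub (by omega)]
      push_cast
      linear_combination two_N hpN
    rw [e2, neg_sq, hs_succ]
    have a := nz hpN (l + 1) (by omega) (by omega)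
    generalize ((l + 1 : ℕ) : ZMod p) = x at *
    field_simp
    ring
  rw [h2]
  ring

lemma sum_range_two_mul (n : ℕ) (f : ℕ → ZMod p) :
    ∑ x ∈ range (2 * n), f x = ∑ l ∈ range n, (f (2 * l) + f (2 * l + 1)) := by
  induction n with
  | zero => simp
  | succ n ih =>
    rw [show 2 * (n + 1) = 2 * n + 1 + 1 by ring, sum_range_succ, sum_range_succ, ih,
      sum_range_succ]
    ring

lemma T0_parity (hpN : p = 2 * N + 1) (hN : 2 ≤ N) :
    8 * T0 p N = 4 * (∑ l ∈ range N, hs (ZMod p) 1 (2 * (l + 1)) *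
      ((((l + 1 : ℕ) : ZMod p)) ^ 2)⁻¹) - hs (ZMod p) 3 N := by
  unfold T0
  rw [sum_range_two_mul, sum_add_distrib]
  have h1 : ∑ l ∈ range N, hs (ZMod p) 1 (2 * l + 1) * ((((2 * l + 1 : ℕ) : ZMod p)) ^ 2)⁻¹ =
      ∑ l ∈ range N, (hs (ZMod p) 1 (2 * (l + 1)) - (2 * ((l + 1 : ℕ) : ZMod p))⁻¹) *
        ((2 * ((l + 1 : ℕ) : ZMod p)) ^ 2)⁻¹ := by
    rw [← sum_range_reflect]
    refine sum_congr rfl fun l hl => ?_
    have hl' := mem_range.1 hl
    have e : 2 * (N - 1 - l) + 1 = 2 * N - (2 * l + 1) := by omega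
    rw [e, hs_reflect' hpN (2 * l + 1) (by omega)]
    have e2 : ((2 * N - (2 * l + 1) : ℕ) : ZMod p) = -(2 * ((l + 1 : ℕ) : ZMod p)) := by
      rw [Nat.cast_sub (by omega)]
      push_cast
      linear_combination two_N hpN
    rw [e2, neg_sq]
    congr 1
    have e3 := hs_succ (K := ZMod p) 1 (2 * l + 1)
    have e4 : ((2 * l + 1 + 1 : ℕ) : ZMod p) = 2 * ((l + 1 : ℕ) : ZMod p) := by push_cast; ring
    rw [e4, pow_one] at e3
    rw [show 2 * (l + 1) = 2 * l + 1 + 1 by ring, e3]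
    ring
  have h2 : ∑ l ∈ range N, hs (ZMod p) 1 (2 * l + 1 + 1) *
      ((((2 * l + 1 + 1 : ℕ) : ZMod p)) ^ 2)⁻¹ =
      ∑ l ∈ range N, hs (ZMod p) 1 (2 * (l + 1)) * ((2 * ((l + 1 : ℕ) : ZMod p)) ^ 2)⁻¹ := by
    refine sum_congr rfl fun l hl => ?_
    rw [show 2 * (l + 1) = 2 * l + 1 + 1 by ring]
    congr 3
    push_cast
    ring
  rw [h1, h2, ← sum_add_distrib, mul_sum, mul_sum, hs, ← sum_sub_distrib]
  refine sum_congr rfl fun l hl => ?_
  have hl' := mem_range.1 hl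
  have a := nz hpN (l + 1) (by omega) (by omega)
  have a0 := two_ne hpN hN
  generalize ((l + 1 : ℕ) : ZMod p) = x at *
  generalize hs (ZMod p) 1 (2 * (l + 1)) = y at *
  field_simp
  ring

/-- evaluation of `∑ H_{N-l}/l^2` -/
theorem G_eval (hpN : p = 2 * N + 1) (hN : 2 ≤ N) :
    2 * (∑ l ∈ range N, hs (ZMod p) 1 (N - (l + 1)) * ((((l + 1 : ℕ) : ZMod p)) ^ 2)⁻¹) =
      7 * T0 p N := by
  have h1 := T0_half hpN
  have h2 := T0_parity hpN hN
  have h3 : ∑ l ∈ range N, hs (ZMod p) 1 (N - (l + 1)) * ((((l + 1 : ℕ) : ZMod p)) ^ 2)⁻¹ =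
      2 * (∑ l ∈ range N, hs (ZMod p) 1 (2 * (l + 1)) * ((((l + 1 : ℕ) : ZMod p)) ^ 2)⁻¹) -
      (∑ l ∈ range N, hs (ZMod p) 1 (l + 1) * ((((l + 1 : ℕ) : ZMod p)) ^ 2)⁻¹) +
      hs (ZMod p) 1 N * hs (ZMod p) 2 N := by
    rw [show hs (ZMod p) 2 N = ∑ i ∈ range N, (((i + 1 : ℕ) : ZMod p) ^ 2)⁻¹ from rfl]
    rw [mul_sum, mul_sum, ← sum_sub_distrib, ← sum_add_distrib]
    refine sum_congr rfl fun l hl => ?_
    have hl' := mem_range.1 hl
    have e := hs_dup hpN (l + 1) (by omega)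
    rw [← hs_reflect hpN (l + 1) (by omega)]
    linear_combination -((((l + 1 : ℕ) : ZMod p)) ^ 2)⁻¹ * e
  rw [hs_two_half hpN hN, mul_zero, add_zero] at h3
  generalize (∑ l ∈ range N, hs (ZMod p) 1 (N - (l + 1)) *
    ((((l + 1 : ℕ) : ZMod p)) ^ 2)⁻¹) = G at *
  generalize (∑ l ∈ range N, hs (ZMod p) 1 (2 * (l + 1)) *
    ((((l + 1 : ℕ) : ZMod p)) ^ 2)⁻¹) = E2 at *
  generalize (∑ l ∈ range N, hs (ZMod p) 1 (l + 1) *
    ((((l + 1 : ℕ) : ZMod p)) ^ 2)⁻¹) = E1 at *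
  generalize hs (ZMod p) 3 N = h at *
  linear_combination 2 * h3 + h1 - h2

end

end Pool.Agent.Helper10.SC
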