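import Mathlib
import Pool.Agent.Helper10.SC.Fp

/-!
Evaluation of `A1 = ∑ c_k H^{(2)}_{N+k} / k`.
-/

open Finset Polynomial

namespace Pool.Agent.Helper10.SC

section
variable {K : Type*} [Field K]

lemma prod_up (a k : ℕ) :
    ∏ i ∈ range k, (((a + i + 1 : ℕ) : K)) = (k.factorial : K) * ((a + k).choose k : K) := by
  induction k with
  | zero => simp
  | succ k ih =>
    rw [prod_range_succ, ih, Nat.factorial_succ]
    have := Nat.add_one_mul_choose_eq (a + k) k
    have h3 : (((a + k + 1) * (a + k).choose k : ℕ) : K)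
        = (((a + k + 1).choose (k + 1) * (k + 1) : ℕ) : K) := by rw [this]
    rw [show a + (k + 1) = a + k + 1 from rfl]
    push_cast at *
    linear_combination (k.factorial : K) * h3

lemma prod_down (a k : ℕ) :
    ∏ i ∈ range k, ((a : K) - (i : K)) = (k.factorial : K) * (a.choose k : K) := by
  induction k with
  | zero => simp
  | succ k ih =>
    rw [prod_range_succ, ih, Nat.factorial_succ]
    rcases le_or_gt k a with h | h
    · have := choose_right_k (K := K) a k h
      push_cast at *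
      linear_combination -(k.factorial : K) * this
    · rw [Nat.choose_eq_zero_of_lt h, Nat.choose_eq_zero_of_lt (by omega)]
      simp

/-- auxiliary product -/
noncomputable def PP (a : ℕ → K) (k : ℕ) : K[X] := ∏ i ∈ range k, (C (a i) - X ^ 2)

lemma PP_succ (a : ℕ → K) (k : ℕ) : PP a (k + 1) = PP a k * (C (a k) - X ^ 2) := by
  simp [PP, prod_range_succ]

lemma PP_natDegree (a : ℕ → K) (k : ℕ) : (PP a k).natDegree ≤ 2 * k := by
  induction k with
  | zero => simp [PP]
  | succ k ih =>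
    rw [PP_succ]
    refine (natDegree_mul_le).trans ?_
    have : (C (a k) - X ^ 2 : K[X]).natDegree ≤ 2 := by
      refine (natDegree_sub_le _ _).trans ?_
      simp
    omega

lemma PP_coeff_zero (a : ℕ → K) (k : ℕ) : (PP a k).coeff 0 = ∏ i ∈ range k, a i := by
  induction k with
  | zero => simp [PP]
  | succ k ih =>
    rw [PP_succ, prod_range_succ, mul_coeff_zero, ih]
    simp

lemma PP_coeff_two (a : ℕ → K) (k : ℕ) (ha : ∀ i < k, a i ≠ 0) :
    (PP a k).coeff 2 = -((∏ i ∈ range k, a i) * ∑ i ∈ range k, (a i)⁻¹) := by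
  induction k with
  | zero => simp [PP, Polynomial.coeff_one]
  | succ k ih =>
    have ih := ih (fun i hi => ha i (by omega))
    have hk := ha k (by omega)
    rw [PP_succ, mul_sub, coeff_sub, coeff_mul_C, ih]
    have : ((PP a k) * X ^ 2).coeff 2 = (PP a k).coeff 0 := by
      have := Polynomial.coeff_mul_X_pow (PP a k) 2 0
      simpa using this
    rw [this, PP_coeff_zero, prod_range_succ, sum_range_succ]
    generalize ∏ i ∈ range k, a i = P
    generalize ∑ i ∈ range k, (a i)⁻¹ = S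
    field_simp
    ring

lemma PP_eval (a : ℕ → K) (k : ℕ) (x : K) :
    (PP a k).eval x = ∏ i ∈ range k, (a i - x ^ 2) := by
  simp [PP, eval_prod]

end

section
variable {p : ℕ} [hp : Fact p.Prime] {N : ℕ}

lemma choose_refl (hpN : p = 2 * N + 1) (k : ℕ) (hk : k ≤ N) :
    (((N + k).choose k : ℕ) : ZMod p) = (-1) ^ k * ((N.choose k : ℕ) : ZMod p) := by
  induction k with
  | zero => simp
  | succ k ih =>
    have ih := ih (by omega)
    have e1 := choose_right_k (K := ZMod p) N k (by omega)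
    have e2 : ((N + k + 1).choose (k + 1) : ZMod p) * (k + 1)
        = (N + k + 1) * ((N + k).choose k : ZMod p) := by
      have := Nat.add_one_mul_choose_eq (N + k) k
      have h3 : (((N + k + 1) * (N + k).choose k : ℕ) : ZMod p)
          = (((N + k + 1).choose (k + 1) * (k + 1) : ℕ) : ZMod p) := by rw [this]
      push_cast at h3
      linear_combination -h3
    have a := nz hpN (k + 1) (by omega) (by omega)
    push_cast at a
    have h2 := two_N hpN
    rw [show N + (k + 1) = N + k + 1 from rfl]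
    apply mul_right_cancel₀ a
    rw [e2, ih]
    linear_combination (-1 : ZMod p) ^ k * e1 + (-1 : ZMod p) ^ k * (N.choose k : ZMod p) * h2

lemma cc_eq_sq (hpN : p = 2 * N + 1) (k : ℕ) (hk : k ≤ N) :
    cc (ZMod p) N k = (((N + k).choose k : ℕ) : ZMod p) ^ 2 := by
  unfold cc
  rw [sq]
  nth_rewrite 2 [choose_refl hpN k hk]
  ring

lemma fact_ne (hpN : p = 2 * N + 1) (k : ℕ) (hk : k ≤ 2 * N) : ((k.factorial : ℕ) : ZMod p) ≠ 0 := by
  rw [Ne, ZMod.natCast_eq_zero_iff, hp.out.dvd_factorial]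
  omega

lemma hs_two_shift (hpN : p = 2 * N + 1) (hN : 2 ≤ N) (k : ℕ) :
    hs (ZMod p) 2 (N + k) = ∑ i ∈ range k, (((N + i + 1 : ℕ) : ZMod p) ^ 2)⁻¹ := by
  have : hs (ZMod p) 2 (N + k) = hs (ZMod p) 2 N +
      ∑ i ∈ range k, (((N + i + 1 : ℕ) : ZMod p) ^ 2)⁻¹ := by
    unfold hs
    rw [sum_range_add]
  rw [this, hs_two_half hpN hN, zero_add]

/-- for each `k`, `c_k H^{(2)}_{N+k} = 2 ∑_l c(N-l,k)/l^2` -/
lemma A_term (hpN : p = 2 * N + 1) (hN : 2 ≤ N) (k : ℕ) (hk : k ≤ N) :
    cc (ZMod p) N k * hs (ZMod p) 2 (N + k) =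
      2 * ∑ l ∈ range N, cc (ZMod p) (N - (l + 1)) k * ((((l + 1 : ℕ) : ZMod p)) ^ 2)⁻¹ := by
  set a : ℕ → ZMod p := fun i => ((N + i + 1 : ℕ) : ZMod p) ^ 2 with ha
  have hane : ∀ i < k, a i ≠ 0 := fun i hi => pow_ne_zero 2 (nz hpN _ (by omega) (by omega))
  have hkf : ((k.factorial : ℕ) : ZMod p) ≠ 0 := fact_ne hpN k (by omega)
  have h1 := coeff_extract hpN (PP a k) 2 (by omega) (by omega)
    ((PP_natDegree a k).trans (by omega))
  rw [PP_coeff_two a k hane, neg_neg] at h1
  have h2 : ∏ i ∈ range k, a i = ((k.factorial : ℕ) : ZMod p) ^ 2 * cc (ZMod p) N k := by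
    rw [cc_eq_sq hpN k hk, ← mul_pow, ← prod_up, prod_pow]
  have h3 : ∑ i ∈ range k, (a i)⁻¹ = hs (ZMod p) 2 (N + k) := by
    rw [hs_two_shift hpN hN]
  rw [h2, h3] at h1
  have h4 : ∀ l ∈ range N, (PP a k).eval (((l + 1 : ℕ) : ZMod p)) =
      ((k.factorial : ℕ) : ZMod p) ^ 2 * cc (ZMod p) (N - (l + 1)) k := by
    intro l hl
    have hl' := mem_range.1 hl
    rw [PP_eval]
    have e : ∀ i ∈ range k, (a i - ((l + 1 : ℕ) : ZMod p) ^ 2) =
        (-1) * ((((N - (l + 1)) + i + 1 : ℕ) : ZMod p)) *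
          (((N - (l + 1) : ℕ) : ZMod p) - (i : ZMod p)) := by
      intro i hi
      have h2 := two_N hpN
      have e1 : (((N - (l + 1)) + i + 1 : ℕ) : ZMod p) = (N : ZMod p) + i - l := by
        have : ((N - (l + 1)) + i + 1 : ℕ) = N + i - l := by omega
        rw [this, Nat.cast_sub (by omega)]
        push_cast; ring
      have e2 : ((N - (l + 1) : ℕ) : ZMod p) = N - (l + 1) := by
        rw [Nat.cast_sub (by omega)]; push_cast; ring
      rw [e1, e2, ha]
      push_cast
      linear_combination ((N : ZMod p) + i - l) * h2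
    rw [prod_congr rfl e, prod_mul_distrib, prod_mul_distrib, prod_up, prod_down, prod_const,
      card_range]
    unfold cc
    ring
  have h5 := split_sum hpN (fun x => (PP a k).eval x * (x ^ 2)⁻¹)
  simp only [neg_sq] at h5
  rw [h5] at h1
  have h6 : ∀ x : ZMod p, (PP a k).eval (-x) = (PP a k).eval x := by
    intro x; rw [PP_eval, PP_eval, neg_sq]
  simp only [h6] at h1
  rw [← two_mul, sum_congr rfl (fun l hl => by rw [h4 l hl, mul_assoc]), ← mul_sum] at h1
  apply mul_left_cancel₀ (pow_ne_zero 2 hkf)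
  linear_combination -h1

/-- `A1 = -4 ∑ H_{N-l}/l^2 = -14 T` -/
theorem A_eval (hpN : p = 2 * N + 1) (hN : 2 ≤ N) :
    (∑ k ∈ range N, cc (ZMod p) N (k + 1) * hs (ZMod p) 2 (N + (k + 1)) *
      ((k + 1 : ℕ) : ZMod p)⁻¹) = -14 * T0 p N := by
  have h1 : ∀ k ∈ range N, cc (ZMod p) N (k + 1) * hs (ZMod p) 2 (N + (k + 1)) *
      ((k + 1 : ℕ) : ZMod p)⁻¹ = ∑ l ∈ range N, 2 * ((((l + 1 : ℕ) : ZMod p)) ^ 2)⁻¹ *
        (cc (ZMod p) (N - (l + 1)) (k + 1) * ((k + 1 : ℕ) : ZMod p)⁻¹) := by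
    intro k hk
    have hk' := mem_range.1 hk
    rw [A_term hpN hN (k + 1) (by omega), mul_sum, sum_mul]
    refine sum_congr rfl fun l hl => ?_
    ring
  rw [sum_congr rfl h1, sum_comm]
  have h2 : ∀ l ∈ range N, ∑ k ∈ range N, 2 * ((((l + 1 : ℕ) : ZMod p)) ^ 2)⁻¹ *
        (cc (ZMod p) (N - (l + 1)) (k + 1) * ((k + 1 : ℕ) : ZMod p)⁻¹) =
      -4 * (hs (ZMod p) 1 (N - (l + 1)) * ((((l + 1 : ℕ) : ZMod p)) ^ 2)⁻¹) := by
    intro l hl
    have hl' := mem_range.1 hl
    rw [← mul_sum]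
    have e : ∑ k ∈ range N, (cc (ZMod p) (N - (l + 1)) (k + 1) * ((k + 1 : ℕ) : ZMod p)⁻¹) =
        ∑ k ∈ range (N - (l + 1)),
          (cc (ZMod p) (N - (l + 1)) (k + 1) * ((k + 1 : ℕ) : ZMod p)⁻¹) := by
      symm
      apply sum_subset
      · intro x hx
        rw [mem_range] at *
        omega
      · intro x _ hx
        rw [mem_range, not_lt] at hx
        rw [cc_of_lt (by omega), zero_mul]
    rw [e, sum_cc_div (N - (l + 1)) (fun a h1 h2 => nz hpN a h1 (by omega))]
    ring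
  rw [sum_congr rfl h2, ← mul_sum]
  have := G_eval hpN hN
  linear_combination -2 * this

end

end Pool.Agent.Helper10.SC
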