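import Mathlib
import Pool.Agent.Helper10.SC.FpA

/-!
Evaluation of `Y = ∑ F'(-l)^2 / l`.
-/

open Finset Polynomial

namespace Pool.Agent.Helper10.SC

section
variable {K : Type*} [Field K]

/-- `∏_{j ∈ s} (X + j + 1)` -/
noncomputable def QQ (K : Type*) [Field K] (s : Finset ℕ) : K[X] :=
  ∏ j ∈ s, (X + C ((j + 1 : ℕ) : K))

lemma QQ_natDegree (s : Finset ℕ) : (QQ K s).natDegree = s.card := by
  unfold QQ
  rw [natDegree_prod_of_monic _ _ (fun i _ => monic_X_add_C _)]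
  simp only [natDegree_X_add_C, sum_const, smul_eq_mul, mul_one]

lemma QQ_coeff_zero (s : Finset ℕ) : (QQ K s).coeff 0 = ∏ j ∈ s, ((j + 1 : ℕ) : K) := by
  classical
  induction s using Finset.induction_on with
  | empty => simp [QQ]
  | insert a s ha ih =>
    unfold QQ at *
    rw [prod_insert ha, prod_insert ha, mul_coeff_zero, ih]
    simp

lemma QQ_coeff_one (s : Finset ℕ) (hs : ∀ j ∈ s, ((j + 1 : ℕ) : K) ≠ 0) :
    (QQ K s).coeff 1 = (∏ j ∈ s, ((j + 1 : ℕ) : K)) * ∑ j ∈ s, (((j + 1 : ℕ) : K))⁻¹ := by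
  classical
  induction s using Finset.induction_on with
  | empty => simp [QQ, Polynomial.coeff_one]
  | insert a s ha ih =>
    have ih := ih (fun j hj => hs j (mem_insert_of_mem hj))
    have h0 := QQ_coeff_zero (K := K) s
    have hne := hs a (mem_insert_self _ _)
    unfold QQ at *
    rw [prod_insert ha, prod_insert ha, sum_insert ha, add_mul, coeff_add, coeff_C_mul, ih]
    have : (X * ∏ j ∈ s, (X + C ((j + 1 : ℕ) : K))).coeff 1 =
        (∏ j ∈ s, (X + C ((j + 1 : ℕ) : K))).coeff 0 :=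
      Polynomial.coeff_X_mul (∏ j ∈ s, (X + C ((j + 1 : ℕ) : K))) 0
    rw [this, h0]
    generalize ((a + 1 : ℕ) : K) = x at *
    field_simp

lemma QQ_eval (s : Finset ℕ) (x : K) : (QQ K s).eval x = ∏ j ∈ s, (x + ((j + 1 : ℕ) : K)) := by
  simp [QQ, eval_prod]

end

section
variable {p : ℕ} [hp : Fact p.Prime] {N : ℕ}

/-- `y_l = F'(-(l+1))` times `N!` -/
def yy (p N l : ℕ) [Fact p.Prime] : ZMod p :=
  ∏ j ∈ (range N).erase l, (-((l + 1 : ℕ) : ZMod p) + ((j + 1 : ℕ) : ZMod p))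

/-- `Y = ∑_l F'(-l)^2/l` -/
def YY (p N : ℕ) [Fact p.Prime] : ZMod p :=
  ∑ l ∈ range N, ((N.factorial : ZMod p)⁻¹ * yy p N l) ^ 2 * (((l + 1 : ℕ) : ZMod p))⁻¹

lemma prod_erase_fact (hpN : p = 2 * N + 1) (i : ℕ) (hi : i < N) :
    (∏ j ∈ (range N).erase i, ((j + 1 : ℕ) : ZMod p)) =
      (N.factorial : ZMod p) * (((i + 1 : ℕ) : ZMod p))⁻¹ := by
  have h := mul_prod_erase (range N) (fun j => ((j + 1 : ℕ) : ZMod p)) (mem_range.2 hi)
  have h2 : ∏ j ∈ range N, ((j + 1 : ℕ) : ZMod p) = (N.factorial : ZMod p) := by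
    rw [← Nat.cast_prod, prod_range_add_one_eq_factorial]
  rw [h2] at h
  have a := nz hpN (i + 1) (by omega) (by omega)
  rw [← h]
  generalize ((i + 1 : ℕ) : ZMod p) = x at *
  field_simp

theorem Y_eval (hpN : p = 2 * N + 1) (hN : 2 ≤ N) : YY p N = -14 * T0 p N := by
  set Nf : ZMod p := (N.factorial : ZMod p) with hNf
  have hNf0 : Nf ≠ 0 := fact_ne hpN N (by omega)
  set Q : (ZMod p)[X] := ∑ i ∈ range N, (QQ (ZMod p) ((range N).erase i)) ^ 2 with hQ
  have hdeg : Q.natDegree ≤ 2 * N := by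
    rw [hQ]
    apply natDegree_sum_le_of_forall_le
    intro i hi
    refine natDegree_pow_le.trans ?_
    rw [QQ_natDegree, card_erase_of_mem hi, card_range]
    omega
  have h1 := coeff_extract hpN Q 1 le_rfl (by omega) hdeg
  -- coefficient
  have hc : Q.coeff 1 = -2 * Nf ^ 2 * hs (ZMod p) 3 N := by
    rw [hQ, finsetSum_coeff]
    have e : ∀ i ∈ range N, ((QQ (ZMod p) ((range N).erase i)) ^ 2).coeff 1 =
        Nf ^ 2 * (2 * hs (ZMod p) 1 N * ((((i + 1 : ℕ) : ZMod p)) ^ 2)⁻¹ -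
          2 * ((((i + 1 : ℕ) : ZMod p)) ^ 3)⁻¹) := by
      intro i hi
      have hi' := mem_range.1 hi
      have e0 : ∀ q : (ZMod p)[X], (q ^ 2).coeff 1 = 2 * q.coeff 0 * q.coeff 1 := by
        intro q
        rw [sq, coeff_mul]
        rw [Finset.Nat.antidiagonal_succ]
        simp
        ring
      rw [e0, QQ_coeff_zero, QQ_coeff_one _ (fun j hj => nz hpN _ (by omega) (by
        have := mem_range.1 (mem_of_mem_erase hj); omega)), prod_erase_fact hpN i hi']
      have e1 : ∑ j ∈ (range N).erase i, (((j + 1 : ℕ) : ZMod p))⁻¹ =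
          hs (ZMod p) 1 N - (((i + 1 : ℕ) : ZMod p))⁻¹ := by
        have := add_sum_erase (range N) (fun j => (((j + 1 : ℕ) : ZMod p))⁻¹) hi
        unfold hs
        simp only [pow_one]
        linear_combination this
      rw [e1, ← hNf]
      have a := nz hpN (i + 1) (by omega) (by omega)
      generalize ((i + 1 : ℕ) : ZMod p) = x at *
      generalize hs (ZMod p) 1 N = y at *
      field_simp
    rw [sum_congr rfl e, ← mul_sum, sum_sub_distrib, ← mul_sum, ← mul_sum]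
    have e2 : ∑ i ∈ range N, ((((i + 1 : ℕ) : ZMod p)) ^ 2)⁻¹ = 0 := hs_two_half hpN hN
    have e3 : ∑ i ∈ range N, ((((i + 1 : ℕ) : ZMod p)) ^ 3)⁻¹ = hs (ZMod p) 3 N := rfl
    rw [e2, e3]
    ring
  have h5 := split_sum hpN (fun x => Q.eval x * (x ^ 1)⁻¹)
  rw [h5, hc] at h1
  -- values at positive points
  have hpos : ∀ k ∈ range N, Q.eval (((k + 1 : ℕ) : ZMod p)) * ((((k + 1 : ℕ) : ZMod p)) ^ 1)⁻¹ =
      Nf ^ 2 * (cc (ZMod p) N (k + 1) * hs (ZMod p) 2 (N + (k + 1)) * ((k + 1 : ℕ) : ZMod p)⁻¹ -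
        cc (ZMod p) N (k + 1) * hs (ZMod p) 2 (k + 1) * ((k + 1 : ℕ) : ZMod p)⁻¹) := by
    intro k hk
    have hk' := mem_range.1 hk
    have e : Q.eval (((k + 1 : ℕ) : ZMod p)) = Nf ^ 2 * cc (ZMod p) N (k + 1) *
        (hs (ZMod p) 2 (N + (k + 1)) - hs (ZMod p) 2 (k + 1)) := by
      have e1 : hs (ZMod p) 2 (N + (k + 1)) - hs (ZMod p) 2 (k + 1) =
          ∑ i ∈ range N, (((k + 1 + i + 1 : ℕ) : ZMod p) ^ 2)⁻¹ := by
        rw [add_comm N (k + 1)]
        unfold hs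
        rw [sum_range_add]
        ring
      rw [e1, mul_sum, hQ, eval_finsetSum]
      refine sum_congr rfl fun i hi => ?_
      have hi' := mem_range.1 hi
      rw [eval_pow, QQ_eval]
      have e2 := mul_prod_erase (range N)
        (fun j => (((k + 1 : ℕ) : ZMod p)) + ((j + 1 : ℕ) : ZMod p)) hi
      have e3 : ∏ j ∈ range N, ((((k + 1 : ℕ) : ZMod p)) + ((j + 1 : ℕ) : ZMod p)) =
          Nf * (((N + (k + 1)).choose (k + 1) : ℕ) : ZMod p) := by
        have := prod_up (K := ZMod p) (k + 1) N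
        rw [show k + 1 + N = N + (k + 1) by omega,
          Nat.choose_symm_of_eq_add (show N + (k + 1) = N + (k + 1) from rfl)] at this
        rw [hNf, ← this]
        refine prod_congr rfl fun j _ => ?_
        push_cast
        ring
      rw [e3] at e2
      rw [cc_eq_sq hpN (k + 1) (by omega)]
      have a := nz hpN (k + 1 + i + 1) (by omega) (by omega)
      have e4 : (((k + 1 : ℕ) : ZMod p)) + ((i + 1 : ℕ) : ZMod p)
          = ((k + 1 + i + 1 : ℕ) : ZMod p) := by push_cast; ring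
      rw [e4] at e2
      generalize ((k + 1 + i + 1 : ℕ) : ZMod p) = x at *
      rw [← mul_pow, ← e2]
      field_simp
    rw [e, pow_one]
    ring
  -- values at negative points
  have hneg : ∀ l ∈ range N, Q.eval (-((l + 1 : ℕ) : ZMod p)) * ((-((l + 1 : ℕ) : ZMod p)) ^ 1)⁻¹ =
      -(yy p N l ^ 2 * (((l + 1 : ℕ) : ZMod p))⁻¹) := by
    intro l hl
    have e : Q.eval (-((l + 1 : ℕ) : ZMod p)) = yy p N l ^ 2 := by
      rw [hQ, eval_finsetSum, sum_eq_single_of_mem l hl]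
      · rw [eval_pow, QQ_eval]; rfl
      · intro i hi hil
        rw [eval_pow, QQ_eval, prod_eq_zero (i := l), zero_pow (by norm_num)]
        · exact mem_erase.2 ⟨hil.symm, hl⟩
        · ring
    rw [e, pow_one, inv_neg]
    ring
  rw [sum_congr rfl hpos, sum_congr rfl hneg, ← mul_sum, sum_sub_distrib, A_eval hpN hN,
    sum_cc_h_div N (fun a h1 h2 => nz hpN a h1 h2), sum_neg_distrib] at h1
  have hY : YY p N = (Nf ^ 2)⁻¹ * ∑ l ∈ range N, (yy p N l ^ 2 * (((l + 1 : ℕ) : ZMod p))⁻¹) := by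
    unfold YY
    rw [mul_sum]
    refine sum_congr rfl fun l _ => ?_
    rw [mul_pow, inv_pow, hNf]
    ring
  rw [hY]
  have h6 : ∑ l ∈ range N, (yy p N l ^ 2 * (((l + 1 : ℕ) : ZMod p))⁻¹) =
      Nf ^ 2 * (-14 * T0 p N) := by linear_combination -h1
  rw [h6]
  field_simp

end

end Pool.Agent.Helper10.SC
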