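import Mathlib

/-!
`p`-integral rationals and reduction mod `p`.
-/

open Finset

namespace Pool.Agent.Helper10.SC

variable (p : ℕ) [hp : Fact p.Prime]

/-- rationals whose denominator is not divisible by `p` -/
def Rp : Subring ℚ where
  carrier := {x | ((x.den : ℕ) : ZMod p) ≠ 0}
  mul_mem' := by
    intro x y hx hy
    simp only [Set.mem_ofPred_eq, Ne, ZMod.natCast_eq_zero_iff] at *
    intro h
    have h2 := h.trans (Rat.mul_den_dvd x y)
    rcases (hp.out.dvd_mul).1 h2 with h3 | h3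
    · exact hx h3
    · exact hy h3
  add_mem' := by
    intro x y hx hy
    simp only [Set.mem_ofPred_eq, Ne, ZMod.natCast_eq_zero_iff] at *
    intro h
    have h2 := h.trans (Rat.add_den_dvd x y)
    rcases (hp.out.dvd_mul).1 h2 with h3 | h3
    · exact hx h3
    · exact hy h3
  one_mem' := by simp
  zero_mem' := by simp
  neg_mem' := by
    intro x hx
    simpa using hx

/-- reduction mod `p` -/
def phi : Rp p →+* ZMod p where
  toFun x := ((x : ℚ) : ZMod p)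
  map_one' := by simp
  map_zero' := by simp
  map_add' x y := by
    push_cast
    exact Rat.cast_add_of_ne_zero x.2 y.2
  map_mul' x y := by
    push_cast
    exact Rat.cast_mul_of_ne_zero x.2 y.2

variable {p}

lemma mem_Rp_iff {x : ℚ} : x ∈ Rp p ↔ ((x.den : ℕ) : ZMod p) ≠ 0 := Iff.rfl

lemma nat_mem (n : ℕ) : (n : ℚ) ∈ Rp p := natCast_mem _ n

lemma int_mem (n : ℤ) : (n : ℚ) ∈ Rp p := intCast_mem _ n

lemma inv_mem {n : ℕ} (h : (n : ZMod p) ≠ 0) : ((n : ℚ))⁻¹ ∈ Rp p := by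
  rw [mem_Rp_iff]
  rcases Nat.eq_zero_or_pos n with rfl | hn
  · simp
  · rw [Rat.inv_natCast_den_of_pos hn]
    exact h

/-- rational number congruence to `0` modulo `p^m` -/
def I (p : ℕ) [Fact p.Prime] (m : ℕ) (x : ℚ) : Prop := ∃ z ∈ Rp p, x = (p : ℚ) ^ m * z

lemma I.mem {m : ℕ} {x : ℚ} (h : I p m x) : x ∈ Rp p := by
  obtain ⟨z, hz, rfl⟩ := h
  exact (Rp p).mul_mem ((Rp p).pow_mem (nat_mem p) m) hz

lemma I.add {m : ℕ} {x y : ℚ} (hx : I p m x) (hy : I p m y) : I p m (x + y) := by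
  obtain ⟨z, hz, rfl⟩ := hx
  obtain ⟨w, hw, rfl⟩ := hy
  exact ⟨z + w, (Rp p).add_mem hz hw, by ring⟩

lemma I.neg {m : ℕ} {x : ℚ} (hx : I p m x) : I p m (-x) := by
  obtain ⟨z, hz, rfl⟩ := hx
  exact ⟨-z, (Rp p).neg_mem hz, by ring⟩

lemma I.sub {m : ℕ} {x y : ℚ} (hx : I p m x) (hy : I p m y) : I p m (x - y) := by
  rw [sub_eq_add_neg]; exact hx.add hy.neg

lemma I.zero (m : ℕ) : I p m 0 := ⟨0, (Rp p).zero_mem, by ring⟩

lemma I.mul {a b : ℕ} {x y : ℚ} (hx : I p a x) (hy : I p b y) : I p (a + b) (x * y) := by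
  obtain ⟨z, hz, rfl⟩ := hx
  obtain ⟨w, hw, rfl⟩ := hy
  exact ⟨z * w, (Rp p).mul_mem hz hw, by ring⟩

lemma I_zero_iff {x : ℚ} : I p 0 x ↔ x ∈ Rp p :=
  ⟨fun h => h.mem, fun h => ⟨x, h, by ring⟩⟩

lemma I.mul_mem {a : ℕ} {x y : ℚ} (hx : I p a x) (hy : y ∈ Rp p) : I p a (x * y) := by
  have := hx.mul (I_zero_iff.2 hy)
  simpa using this

lemma I.mem_mul {a : ℕ} {x y : ℚ} (hx : I p a x) (hy : y ∈ Rp p) : I p a (y * x) := by
  rw [mul_comm]; exact hx.mul_mem hy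

lemma I.mono {a b : ℕ} (hab : a ≤ b) {x : ℚ} (hx : I p b x) : I p a x := by
  obtain ⟨z, hz, rfl⟩ := hx
  obtain ⟨c, rfl⟩ := Nat.exists_eq_add_of_le hab
  exact ⟨(p : ℚ) ^ c * z, (Rp p).mul_mem ((Rp p).pow_mem (nat_mem p) c) hz, by ring⟩

lemma I.sum {ι : Type*} {s : Finset ι} {f : ι → ℚ} {m : ℕ} (h : ∀ i ∈ s, I p m (f i)) :
    I p m (∑ i ∈ s, f i) := by
  classical
  induction s using Finset.induction_on with
  | empty => simpa using I.zero m
  | insert a s ha ih =>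
    rw [sum_insert ha]
    exact (h a (mem_insert_self _ _)).add (ih fun i hi => h i (mem_insert_of_mem hi))

lemma I_pow (m : ℕ) : I p m ((p : ℚ) ^ m) := ⟨1, (Rp p).one_mem, by ring⟩

lemma I_one : I p 1 (p : ℚ) := by simpa using I_pow (p := p) 1

lemma I_pow_mul {m : ℕ} {x : ℚ} (hx : x ∈ Rp p) : I p m ((p : ℚ) ^ m * x) := ⟨x, hx, rfl⟩

lemma I.of_pow_mul {m k : ℕ} {x : ℚ} (h : I p (m + k) ((p : ℚ) ^ m * x)) : I p k x := by
  obtain ⟨z, hz, h⟩ := h
  refine ⟨z, hz, ?_⟩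
  have hp0 : (p : ℚ) ^ m ≠ 0 := pow_ne_zero _ (by exact_mod_cast hp.out.ne_zero)
  apply mul_left_cancel₀ hp0
  rw [h]; ring

lemma phi_apply (x : Rp p) : phi p x = ((x : ℚ) : ZMod p) := rfl

lemma I_one_iff {x : ℚ} (hx : x ∈ Rp p) : I p 1 x ↔ ((x : ℚ) : ZMod p) = 0 := by
  constructor
  · rintro ⟨z, hz, rfl⟩
    have : phi p (⟨(p : ℚ), nat_mem p⟩ * ⟨z, hz⟩) = 0 := by
      rw [map_mul, phi_apply]
      simp
    rw [phi_apply] at this
    simpa using this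
  · intro h
    rw [Rat.cast_def, div_eq_zero_iff] at h
    rcases h with h | h
    · rw [ZMod.intCast_zmod_eq_zero_iff_dvd] at h
      obtain ⟨c, hc⟩ := h
      refine ⟨(c : ℚ) * ((x.den : ℕ) : ℚ)⁻¹, (Rp p).mul_mem (int_mem c) (inv_mem hx), ?_⟩
      have h5 : x = (x.num : ℚ) / x.den := (Rat.num_div_den x).symm
      have h6 : (x.num : ℚ) = (p : ℚ) * c := by rw [hc]; push_cast; ring
      calc x = (x.num : ℚ) / x.den := h5
        _ = (p : ℚ) ^ 1 * (↑c * ((x.den : ℕ) : ℚ)⁻¹) := by rw [h6]; ring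
    · exact absurd h hx

lemma cast_add' {x y : ℚ} (hx : x ∈ Rp p) (hy : y ∈ Rp p) :
    ((x + y : ℚ) : ZMod p) = (x : ZMod p) + (y : ZMod p) := Rat.cast_add_of_ne_zero hx hy

lemma cast_mul' {x y : ℚ} (hx : x ∈ Rp p) (hy : y ∈ Rp p) :
    ((x * y : ℚ) : ZMod p) = (x : ZMod p) * (y : ZMod p) := Rat.cast_mul_of_ne_zero hx hy

lemma cast_neg' (x : ℚ) : ((-x : ℚ) : ZMod p) = -(x : ZMod p) := Rat.cast_neg x

lemma cast_sub' {x y : ℚ} (hx : x ∈ Rp p) (hy : y ∈ Rp p) :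
    ((x - y : ℚ) : ZMod p) = (x : ZMod p) - (y : ZMod p) := by
  rw [sub_eq_add_neg, cast_add' hx ((Rp p).neg_mem hy), cast_neg']
  ring

lemma cast_sum' {ι : Type*} {s : Finset ι} {f : ι → ℚ} (h : ∀ i ∈ s, f i ∈ Rp p) :
    ((∑ i ∈ s, f i : ℚ) : ZMod p) = ∑ i ∈ s, ((f i : ℚ) : ZMod p) := by
  classical
  induction s using Finset.induction_on with
  | empty => simp
  | insert a s ha ih =>
    rw [sum_insert ha, sum_insert ha, cast_add' (h a (mem_insert_self _ _))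
      ((Rp p).sum_mem fun i hi => h i (mem_insert_of_mem hi)),
      ih fun i hi => h i (mem_insert_of_mem hi)]

lemma cast_pow' {x : ℚ} (hx : x ∈ Rp p) (n : ℕ) :
    ((x ^ n : ℚ) : ZMod p) = (x : ZMod p) ^ n := by
  induction n with
  | zero => simp
  | succ n ih => rw [pow_succ, pow_succ, cast_mul' ((Rp p).pow_mem hx n) hx, ih]

lemma cast_inv' {n : ℕ} (h : (n : ZMod p) ≠ 0) :
    ((((n : ℚ))⁻¹ : ℚ) : ZMod p) = ((n : ZMod p))⁻¹ := by
  have hn : (n : ℚ) ≠ 0 := by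
    rintro h0
    have : n = 0 := by exact_mod_cast h0
    rw [this] at h
    simp at h
  have h1 : (((n : ℚ) * ((n : ℚ))⁻¹ : ℚ) : ZMod p) = 1 := by
    rw [mul_inv_cancel₀ hn]; simp
  rw [cast_mul' (nat_mem n) (inv_mem h)] at h1
  have h2 : ((n : ℚ) : ZMod p) = (n : ZMod p) := by simp
  rw [h2] at h1
  exact eq_inv_of_mul_eq_one_right h1

/-- product expansion -/
lemma prod_one_add {ι : Type*} (s : Finset ι) (f : ι → ℚ) (m : ℕ) (h : ∀ i ∈ s, I p m (f i)) :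
    I p (2 * m) (∏ i ∈ s, (1 + f i) - (1 + ∑ i ∈ s, f i)) := by
  classical
  induction s using Finset.induction_on with
  | empty => simpa using I.zero _
  | insert a s ha ih =>
    have ih := ih fun i hi => h i (mem_insert_of_mem hi)
    have hS : I p m (∑ i ∈ s, f i) := I.sum fun i hi => h i (mem_insert_of_mem hi)
    have h0 := h a (mem_insert_self _ _)
    rw [prod_insert ha, sum_insert ha]
    have e : (1 + f a) * ∏ i ∈ s, (1 + f i) - (1 + (f a + ∑ i ∈ s, f i)) =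
        (1 + f a) * (∏ i ∈ s, (1 + f i) - (1 + ∑ i ∈ s, f i)) + f a * ∑ i ∈ s, f i := by ring
    rw [e]
    refine (ih.mem_mul ((Rp p).add_mem (Rp p).one_mem h0.mem)).add ?_
    have := h0.mul hS
    rwa [← two_mul] at this

end Pool.Agent.Helper10.SC
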