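import Mathlib
import Pool.Agent.Helper10.SC.Rp
import Pool.Agent.Helper10.SC.FpY

/-!
Harmonic sums modulo `p^2` and Bernoulli numbers.
-/

open Finset

namespace Pool.Agent.Helper10.SC

section alt

lemma alt_one (n : ℕ) :
    ∑ k ∈ range n, (-1 : ℚ) ^ k * (n.choose (k + 1) : ℚ) * (((k + 1 : ℕ) : ℚ))⁻¹ = hs ℚ 1 n := by
  induction n with
  | zero => simp [hs_zero]
  | succ n ih =>
    have key : ∀ k ∈ range (n + 1), (-1 : ℚ) ^ k * ((n + 1).choose (k + 1) : ℚ) *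
        (((k + 1 : ℕ) : ℚ))⁻¹ = (-1 : ℚ) ^ k * (n.choose (k + 1) : ℚ) * (((k + 1 : ℕ) : ℚ))⁻¹ +
        (-1 : ℚ) ^ k * ((n + 1).choose (k + 1) : ℚ) * (((n + 1 : ℕ) : ℚ))⁻¹ := by
      intro k hk
      have hk' := mem_range.1 hk
      have e1 : ((n + 1).choose (k + 1) : ℚ) = (n.choose k : ℚ) + (n.choose (k + 1) : ℚ) := by
        rw [Nat.choose_succ_succ]; push_cast; ring
      have e2 : ((n + 1).choose (k + 1) : ℚ) * (k + 1) = (n + 1) * (n.choose k : ℚ) := by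
        have := Nat.add_one_mul_choose_eq n k
        have h3 : (((n + 1) * n.choose k : ℕ) : ℚ)
            = (((n + 1).choose (k + 1) * (k + 1) : ℕ) : ℚ) := by rw [this]
        push_cast at h3
        linear_combination -h3
      have a1 : ((k : ℚ) + 1) ≠ 0 := by positivity
      have a2 : ((n : ℚ) + 1) ≠ 0 := by positivity
      push_cast
      have e3 : ((n + 1).choose (k + 1) : ℚ) = (n + 1) * (n.choose k : ℚ) / (k + 1) := by
        field_simp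
        linear_combination e2
      have e4 : (n.choose (k + 1) : ℚ) = (n + 1) * (n.choose k : ℚ) / (k + 1) -
          (n.choose k : ℚ) := by
        rw [← e3, e1]; ring
      rw [e3, e4]
      field_simp
      ring
    rw [sum_congr rfl key, sum_add_distrib, ← sum_mul, sum_range_succ,
      Nat.choose_eq_zero_of_lt (show n < n + 1 by omega)]
    have h2 : ∑ k ∈ range (n + 1), (-1 : ℚ) ^ k * ((n + 1).choose (k + 1) : ℚ) = 1 := by
      have h := Int.alternating_sum_range_choose_of_ne (n := n + 1) (by omega)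
      rw [sum_range_succ'] at h
      have h' : (∑ k ∈ range (n + 1), (-1 : ℚ) ^ (k + 1) * ((n + 1).choose (k + 1) : ℚ)) +
          (-1) ^ 0 * ((n + 1).choose 0 : ℚ) = 0 := by exact_mod_cast h
      have h3 : (∑ k ∈ range (n + 1), (-1 : ℚ) ^ (k + 1) * ((n + 1).choose (k + 1) : ℚ)) =
          - ∑ k ∈ range (n + 1), (-1 : ℚ) ^ k * ((n + 1).choose (k + 1) : ℚ) := by
        rw [← sum_neg_distrib]
        refine sum_congr rfl fun k _ => ?_
        ring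
      rw [h3] at h'
      simp only [pow_zero, Nat.choose_zero_right, Nat.cast_one, mul_one] at h'
      linarith
    rw [h2, hs_succ, ih]
    simp

lemma alt_two (n : ℕ) :
    ∑ k ∈ range n, (-1 : ℚ) ^ k * (n.choose (k + 1) : ℚ) * ((((k + 1 : ℕ) : ℚ)) ^ 2)⁻¹ =
      ∑ k ∈ range n, hs ℚ 1 (k + 1) * (((k + 1 : ℕ) : ℚ))⁻¹ := by
  induction n with
  | zero => simp
  | succ n ih =>
    have key : ∀ k ∈ range (n + 1), (-1 : ℚ) ^ k * ((n + 1).choose (k + 1) : ℚ) *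
        ((((k + 1 : ℕ) : ℚ)) ^ 2)⁻¹ =
        (-1 : ℚ) ^ k * (n.choose (k + 1) : ℚ) * ((((k + 1 : ℕ) : ℚ)) ^ 2)⁻¹ +
        (-1 : ℚ) ^ k * ((n + 1).choose (k + 1) : ℚ) * (((k + 1 : ℕ) : ℚ))⁻¹ *
          (((n + 1 : ℕ) : ℚ))⁻¹ := by
      intro k hk
      have e1 : ((n + 1).choose (k + 1) : ℚ) = (n.choose k : ℚ) + (n.choose (k + 1) : ℚ) := by
        rw [Nat.choose_succ_succ]; push_cast; ring
      have e2 : ((n + 1).choose (k + 1) : ℚ) * (k + 1) = (n + 1) * (n.choose k : ℚ) := by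
        have := Nat.add_one_mul_choose_eq n k
        have h3 : (((n + 1) * n.choose k : ℕ) : ℚ)
            = (((n + 1).choose (k + 1) * (k + 1) : ℕ) : ℚ) := by rw [this]
        push_cast at h3
        linear_combination -h3
      have a1 : ((k : ℚ) + 1) ≠ 0 := by positivity
      have a2 : ((n : ℚ) + 1) ≠ 0 := by positivity
      push_cast
      have e3 : ((n + 1).choose (k + 1) : ℚ) = (n + 1) * (n.choose k : ℚ) / (k + 1) := by
        field_simp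
        linear_combination e2
      have e4 : (n.choose (k + 1) : ℚ) = (n + 1) * (n.choose k : ℚ) / (k + 1) -
          (n.choose k : ℚ) := by
        rw [← e3, e1]; ring
      rw [e3, e4]
      field_simp
      ring
    rw [sum_congr rfl key, sum_add_distrib, ← sum_mul, alt_one (n + 1), sum_range_succ,
      Nat.choose_eq_zero_of_lt (show n < n + 1 by omega), ih, sum_range_succ]
    simp

lemma two_mul_sum_hs (n : ℕ) :
    2 * ∑ k ∈ range n, hs ℚ 1 (k + 1) * (((k + 1 : ℕ) : ℚ))⁻¹ = hs ℚ 1 n ^ 2 + hs ℚ 2 n := by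
  induction n with
  | zero => simp [hs_zero]
  | succ n ih =>
    rw [sum_range_succ, mul_add, ih, hs_succ, hs_succ, pow_one]
    have a : (((n + 1 : ℕ) : ℚ)) ≠ 0 := by positivity
    generalize ((n + 1 : ℕ) : ℚ) = x at *
    field_simp
    ring

end alt

section
variable {p : ℕ} [hp : Fact p.Prime] {N : ℕ}

lemma hsq_mem (hpN : p = 2 * N + 1) (s n : ℕ) (hn : n ≤ 2 * N) : hs ℚ s n ∈ Rp p := by
  unfold hs
  refine (Rp p).sum_mem fun i hi => ?_
  have hi' := mem_range.1 hi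
  rw [← inv_pow]
  exact (Rp p).pow_mem (inv_mem (nz hpN (i + 1) (by omega) (by omega))) s

lemma hsq_cast (hpN : p = 2 * N + 1) (s n : ℕ) (hn : n ≤ 2 * N) :
    ((hs ℚ s n : ℚ) : ZMod p) = hs (ZMod p) s n := by
  unfold hs
  rw [cast_sum']
  · refine sum_congr rfl fun i hi => ?_
    have hi' := mem_range.1 hi
    have a := nz hpN (i + 1) (by omega) (by omega)
    rw [← inv_pow, cast_pow' (inv_mem a), cast_inv' a, inv_pow]
  · intro i hi
    have hi' := mem_range.1 hi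
    rw [← inv_pow]
    exact (Rp p).pow_mem (inv_mem (nz hpN (i + 1) (by omega) (by omega))) s

/-- `T` as a rational number -/
def Tq (N : ℕ) : ℚ := ∑ x ∈ range (2 * N), hs ℚ 1 (x + 1) * ((((x + 1 : ℕ) : ℚ)) ^ 2)⁻¹

lemma Tq_mem (hpN : p = 2 * N + 1) : Tq N ∈ Rp p := by
  unfold Tq
  refine (Rp p).sum_mem fun i hi => ?_
  have hi' := mem_range.1 hi
  refine (Rp p).mul_mem (hsq_mem hpN 1 _ (by omega)) ?_
  rw [← inv_pow]
  exact (Rp p).pow_mem (inv_mem (nz hpN (i + 1) (by omega) (by omega))) _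

lemma Tq_cast (hpN : p = 2 * N + 1) : ((Tq N : ℚ) : ZMod p) = T0 p N := by
  unfold Tq T0
  rw [cast_sum']
  · refine sum_congr rfl fun i hi => ?_
    have hi' := mem_range.1 hi
    have a := nz hpN (i + 1) (by omega) (by omega)
    rw [← inv_pow, cast_mul' (hsq_mem hpN 1 _ (by omega)) ((Rp p).pow_mem (inv_mem a) _),
      hsq_cast hpN 1 _ (by omega), cast_pow' (inv_mem a), cast_inv' a, inv_pow]
  · intro i hi
    have hi' := mem_range.1 hi
    refine (Rp p).mul_mem (hsq_mem hpN 1 _ (by omega)) ?_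
    rw [← inv_pow]
    exact (Rp p).pow_mem (inv_mem (nz hpN (i + 1) (by omega) (by omega))) _

/-- `(-1)^k C(p-1,k) = 1 - p H_k + p^2(...)` -/
lemma choose_expand (hpN : p = 2 * N + 1) (k : ℕ) (hk : k ≤ 2 * N) :
    I p 2 ((-1 : ℚ) ^ k * ((2 * N).choose k : ℚ) - (1 - p * hs ℚ 1 k)) := by
  have e : (-1 : ℚ) ^ k * ((2 * N).choose k : ℚ) =
      ∏ i ∈ range k, (1 + (-(p : ℚ) * (((i + 1 : ℕ) : ℚ))⁻¹)) := by
    induction k with
    | zero => simp
    | succ k ih =>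
      have ih := ih (by omega)
      rw [prod_range_succ, ← ih]
      have e1 := choose_right_k (K := ℚ) (2 * N) k (by omega)
      have a1 : ((k : ℚ) + 1) ≠ 0 := by positivity
      have e2 : ((2 * N).choose (k + 1) : ℚ) = (2 * N - k) * ((2 * N).choose k : ℚ) / (k + 1) := by
        field_simp
        push_cast at e1
        linear_combination e1
      have e3 : (p : ℚ) = 2 * N + 1 := by rw [hpN]; push_cast; ring
      rw [e2, e3]
      push_cast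
      field_simp
      ring
  rw [e]
  have h := prod_one_add (p := p) (range k) (fun i => (-(p : ℚ) * (((i + 1 : ℕ) : ℚ))⁻¹)) 1
    (fun i hi => by
      have hi' := mem_range.1 hi
      exact (I_one.neg).mul_mem (inv_mem (nz hpN (i + 1) (by omega) (by omega))))
  have e4 : ∑ i ∈ range k, (-(p : ℚ) * (((i + 1 : ℕ) : ℚ))⁻¹) = -(p * hs ℚ 1 k) := by
    rw [← mul_sum]; simp [hs]
  rw [e4] at h
  simpa [sub_eq_add_neg] using h

lemma H_full_I (hpN : p = 2 * N + 1) (hN : 2 ≤ N) : I p 1 (hs ℚ 1 (2 * N)) := by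
  rw [I_one_iff (hsq_mem hpN 1 _ le_rfl), hsq_cast hpN 1 _ le_rfl]
  exact hs_total hpN 1 le_rfl (by omega)

/-- `2 p T = 3 H^{(2)}_{p-1}` mod `p^2` -/
lemma T_rel (hpN : p = 2 * N + 1) (hN : 2 ≤ N) :
    I p 2 (2 * (p : ℚ) * Tq N - 3 * hs ℚ 2 (2 * N)) := by
  have h1 := alt_two (2 * N)
  have h2 := two_mul_sum_hs (2 * N)
  rw [← h1] at h2
  have h3 : I p 2 (∑ k ∈ range (2 * N), (-1 : ℚ) ^ k * ((2 * N).choose (k + 1) : ℚ) *
      ((((k + 1 : ℕ) : ℚ)) ^ 2)⁻¹ - (p * Tq N - hs ℚ 2 (2 * N))) := by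
    have e : p * Tq N - hs ℚ 2 (2 * N) = ∑ k ∈ range (2 * N),
        (p * hs ℚ 1 (k + 1) - 1) * ((((k + 1 : ℕ) : ℚ)) ^ 2)⁻¹ := by
      unfold Tq
      rw [show hs ℚ 2 (2 * N) = ∑ k ∈ range (2 * N), ((((k + 1 : ℕ) : ℚ)) ^ 2)⁻¹ from rfl]
      rw [mul_sum, ← sum_sub_distrib]
      refine sum_congr rfl fun k _ => ?_
      ring
    rw [e, ← sum_sub_distrib]
    refine I.sum fun k hk => ?_
    have hk' := mem_range.1 hk
    have hc := choose_expand hpN (k + 1) (by omega)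
    have e2 : (-1 : ℚ) ^ k * ((2 * N).choose (k + 1) : ℚ) * ((((k + 1 : ℕ) : ℚ)) ^ 2)⁻¹ -
        (p * hs ℚ 1 (k + 1) - 1) * ((((k + 1 : ℕ) : ℚ)) ^ 2)⁻¹ =
        -(((-1 : ℚ) ^ (k + 1) * ((2 * N).choose (k + 1) : ℚ) - (1 - p * hs ℚ 1 (k + 1))) *
          ((((k + 1 : ℕ) : ℚ)) ^ 2)⁻¹) := by ring
    rw [e2]
    refine (hc.mul_mem ?_).neg
    rw [← inv_pow]
    exact (Rp p).pow_mem (inv_mem (nz hpN (k + 1) (by omega) (by omega))) _
  have h4 : I p 2 (hs ℚ 1 (2 * N) ^ 2) := by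
    have := (H_full_I hpN hN).mul (H_full_I hpN hN)
    rw [sq]; exact this
  generalize ∑ k ∈ range (2 * N), (-1 : ℚ) ^ k * ((2 * N).choose (k + 1) : ℚ) *
      ((((k + 1 : ℕ) : ℚ)) ^ 2)⁻¹ = S at *
  have e5 : 2 * (p : ℚ) * Tq N - 3 * hs ℚ 2 (2 * N) =
      -(2 * (S - (p * Tq N - hs ℚ 2 (2 * N)))) + hs ℚ 1 (2 * N) ^ 2 := by
    linear_combination h2
  rw [e5]
  exact ((h3.mem_mul (nat_mem 2)).neg).add h4

lemma inv_sq_expand (hpN : p = 2 * N + 1) (j : ℕ) (h1 : 1 ≤ j) (h2 : j ≤ 2 * N) :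
    I p 2 ((((p - j : ℕ) : ℚ) ^ 2)⁻¹ - (((j : ℚ) ^ 2)⁻¹ + 2 * p * ((j : ℚ) ^ 3)⁻¹)) := by
  have a1 : (j : ℚ) ≠ 0 := by positivity
  have e0 : ((p - j : ℕ) : ℚ) = p - j := by rw [Nat.cast_sub (by omega)]
  have a2 : ((p : ℚ) - j) ≠ 0 := by
    rw [← e0]
    have : 0 < p - j := by omega
    positivity
  have e : (((p - j : ℕ) : ℚ) ^ 2)⁻¹ - (((j : ℚ) ^ 2)⁻¹ + 2 * p * ((j : ℚ) ^ 3)⁻¹) =
      (p : ℚ) ^ 2 * ((3 * j - 2 * p) * (((j : ℚ))⁻¹ ^ 3 * (((p - j : ℕ) : ℚ))⁻¹ ^ 2)) := by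
    rw [e0]
    field_simp
    ring
  rw [e]
  refine I_pow_mul ((Rp p).mul_mem ?_ ((Rp p).mul_mem ?_ ?_))
  · exact (Rp p).sub_mem ((Rp p).mul_mem (nat_mem 3) (nat_mem j))
      ((Rp p).mul_mem (nat_mem 2) (nat_mem p))
  · exact (Rp p).pow_mem (inv_mem (nz hpN j h1 h2)) _
  · exact (Rp p).pow_mem (inv_mem (nz hpN (p - j) (by omega) (by omega))) _

omit hp in
lemma sum_halves (hpN : p = 2 * N + 1) (f : ℕ → ℚ) :
    ∑ j ∈ range (2 * N), f (j + 1) = ∑ i ∈ range N, (f (i + 1) + f (p - (i + 1))) := by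
  rw [two_mul, sum_range_add, sum_add_distrib]
  congr 1
  rw [← sum_range_reflect]
  refine sum_congr rfl fun l hl => ?_
  have hl' := mem_range.1 hl
  congr 1
  omega

lemma sum_range_two_mul_q (n : ℕ) (f : ℕ → ℚ) :
    ∑ x ∈ range (2 * n), f x = ∑ l ∈ range n, (f (2 * l) + f (2 * l + 1)) := by
  induction n with
  | zero => simp
  | succ n ih =>
    rw [show 2 * (n + 1) = 2 * n + 1 + 1 by ring, sum_range_succ, sum_range_succ, ih,
      sum_range_succ]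
    ring

omit hp in
lemma sum_parity (hpN : p = 2 * N + 1) (f : ℕ → ℚ) :
    ∑ j ∈ range (2 * N), f (j + 1) =
      ∑ i ∈ range N, (f (2 * (i + 1)) + f (p - 2 * (i + 1))) := by
  rw [sum_range_two_mul_q N (fun j => f (j + 1)), sum_add_distrib, sum_add_distrib, add_comm]
  congr 1
  rw [← sum_range_reflect]
  refine sum_congr rfl fun l hl => ?_
  have hl' := mem_range.1 hl
  congr 1
  omega

lemma H2_full_a (hpN : p = 2 * N + 1) :
    I p 2 (hs ℚ 2 (2 * N) - (2 * hs ℚ 2 N + 2 * p * hs ℚ 3 N)) := by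
  have h1 : hs ℚ 2 (2 * N) = ∑ i ∈ range N, ((((i + 1 : ℕ) : ℚ) ^ 2)⁻¹ +
      (((p - (i + 1) : ℕ) : ℚ) ^ 2)⁻¹) :=
    sum_halves hpN (fun j => (((j : ℕ) : ℚ) ^ 2)⁻¹)
  have h2 : (2 * hs ℚ 2 N + 2 * p * hs ℚ 3 N) = ∑ i ∈ range N, (2 * (((i + 1 : ℕ) : ℚ) ^ 2)⁻¹ +
      2 * p * (((i + 1 : ℕ) : ℚ) ^ 3)⁻¹) := by
    rw [sum_add_distrib, ← mul_sum, ← mul_sum]; rfl
  rw [h1, h2, ← sum_sub_distrib]
  refine I.sum fun i hi => ?_
  have hi' := mem_range.1 hi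
  have := inv_sq_expand hpN (i + 1) (by omega) (by omega)
  convert this using 1
  ring

lemma H2_full_b (hpN : p = 2 * N + 1) :
    I p 2 (4 * hs ℚ 2 (2 * N) - (2 * hs ℚ 2 N + p * hs ℚ 3 N)) := by
  have h1 : hs ℚ 2 (2 * N) = ∑ i ∈ range N, ((((2 * (i + 1) : ℕ) : ℚ) ^ 2)⁻¹ +
      (((p - 2 * (i + 1) : ℕ) : ℚ) ^ 2)⁻¹) :=
    sum_parity hpN (fun j => (((j : ℕ) : ℚ) ^ 2)⁻¹)
  have h2 : (2 * hs ℚ 2 N + p * hs ℚ 3 N) = ∑ i ∈ range N, (2 * (((i + 1 : ℕ) : ℚ) ^ 2)⁻¹ +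
      p * (((i + 1 : ℕ) : ℚ) ^ 3)⁻¹) := by
    rw [sum_add_distrib, ← mul_sum, ← mul_sum]; rfl
  rw [h1, h2, mul_sum, ← sum_sub_distrib]
  refine I.sum fun i hi => ?_
  have hi' := mem_range.1 hi
  have := (inv_sq_expand hpN (2 * (i + 1)) (by omega) (by omega)).mem_mul (nat_mem 4)
  convert this using 1
  push_cast
  have a : ((i : ℚ) + 1) ≠ 0 := by positivity
  generalize ((p - 2 * (i + 1) : ℕ) : ℚ) = y
  generalize ((i : ℚ) + 1) = x at *
  field_simp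
  ring

/-- `6 H_N^{(2)} = -7 p H_N^{(3)}` mod `p^2` -/
lemma H2_half (hpN : p = 2 * N + 1) : I p 2 (6 * hs ℚ 2 N + 7 * p * hs ℚ 3 N) := by
  have h1 := (H2_full_a hpN).mem_mul (nat_mem (p := p) 4)
  have h2 := H2_full_b hpN
  have := h2.sub h1
  convert this using 1
  push_cast
  ring

/-- `H_N^{(3)} = -2 T` mod `p` -/
lemma H3_half (hpN : p = 2 * N + 1) (hN : 2 ≤ N) :
    hs (ZMod p) 3 N = -2 * T0 p N := by
  have h1 := T_rel hpN hN
  have h2 := (H2_full_b hpN).sub (H2_full_a hpN)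
  have h3 : I p (1 + 1) ((p : ℚ) ^ 1 * (2 * Tq N + hs ℚ 3 N)) := by
    have := h1.add h2
    convert this using 1
    ring
  have h4 := I.of_pow_mul h3
  have m1 := Tq_mem (p := p) hpN
  have m2 := hsq_mem (p := p) hpN 3 N (by omega)
  have m0 : (2 : ℚ) ∈ Rp p := by exact_mod_cast nat_mem (p := p) 2
  rw [I_one_iff ((Rp p).add_mem ((Rp p).mul_mem m0 m1) m2),
    cast_add' ((Rp p).mul_mem m0 m1) m2, cast_mul' m0 m1,
    Tq_cast hpN, hsq_cast hpN 3 N (by omega)] at h4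
  push_cast at h4
  linear_combination h4

end

end Pool.Agent.Helper10.SC
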