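import Mathlib
import Pool.Agent.Helper10.SC.Harm

/-!
`T = B_{p-3}` mod `p`.
-/

open Finset

namespace Pool.Agent.Helper10.SC

section
variable {p : ℕ} [hp : Fact p.Prime] {N : ℕ}

lemma bern_mem (hpN : p = 2 * N + 1) (k : ℕ) (hk : k + 1 ≤ 2 * N) : bernoulli k ∈ Rp p := by
  induction k using Nat.strong_induction_on with
  | _ k ih =>
    have h := sum_bernoulli (k + 1)
    rw [sum_range_succ, Nat.choose_succ_self_right] at h
    have hm : (if k + 1 = 1 then (1 : ℚ) else 0) ∈ Rp p := by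
      split_ifs
      · exact (Rp p).one_mem
      · exact (Rp p).zero_mem
    have hs : ∑ j ∈ range k, ((k + 1).choose j : ℚ) * bernoulli j ∈ Rp p := by
      refine (Rp p).sum_mem fun j hj => ?_
      have hj' := mem_range.1 hj
      exact (Rp p).mul_mem (nat_mem _) (ih j hj' (by omega))
    have e : bernoulli k = (((k + 1 : ℕ) : ℚ))⁻¹ * ((if k + 1 = 1 then (1 : ℚ) else 0) -
        ∑ j ∈ range k, ((k + 1).choose j : ℚ) * bernoulli j) := by
      rw [← h]
      have : (((k + 1 : ℕ) : ℚ)) ≠ 0 := by positivity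
      field_simp
      ring
    rw [e]
    exact (Rp p).mul_mem (inv_mem (nz hpN (k + 1) (by omega) hk)) ((Rp p).sub_mem hm hs)

lemma hs_faulhaber (hpN : p = 2 * N + 1) (hN : 2 ≤ N) (x : ℕ) (hx : x < 2 * N) :
    hs (ZMod p) 1 x = ∑ i ∈ range (2 * N), ((bernoulli i : ℚ) : ZMod p) *
      (((2 * N).choose i : ℕ) : ZMod p) * ((x + 1 : ℕ) : ZMod p) ^ (2 * N - i) * (-1) := by
  have h := sum_range_pow (x + 1) (2 * N - 1)
  rw [show 2 * N - 1 + 1 = 2 * N by omega] at h
  have h2N : (((2 * N - 1 : ℕ) : ℚ) + 1) = ((2 * N : ℕ) : ℚ) := by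
    rw [Nat.cast_sub (by omega)]; push_cast; ring
  rw [h2N] at h
  have hc := congrArg (fun q : ℚ => ((q : ℚ) : ZMod p)) h
  beta_reduce at hc
  have a2N := nz hpN (2 * N) (by omega) le_rfl
  rw [cast_sum' (fun i _ => (Rp p).pow_mem (nat_mem i) _)] at hc
  have hmem : ∀ i ∈ range (2 * N), bernoulli i * ((2 * N).choose i : ℚ) *
      ((x + 1 : ℕ) : ℚ) ^ (2 * N - i) / ((2 * N : ℕ) : ℚ) ∈ Rp p := by
    intro i hi
    have hi' := mem_range.1 hi
    rw [div_eq_mul_inv]
    exact (Rp p).mul_mem ((Rp p).mul_mem ((Rp p).mul_mem (bern_mem hpN i (by omega)) (nat_mem _))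
      ((Rp p).pow_mem (nat_mem _) _)) (inv_mem a2N)
  rw [cast_sum' hmem] at hc
  have e1 : ∑ i ∈ range (x + 1), (((i : ℚ) ^ (2 * N - 1) : ℚ) : ZMod p) = hs (ZMod p) 1 x := by
    rw [sum_range_succ']
    unfold hs
    have : (((((0 : ℕ) : ℚ)) ^ (2 * N - 1) : ℚ) : ZMod p) = 0 := by
      rw [Nat.cast_zero, zero_pow (by omega)]; simp
    rw [this, add_zero]
    refine sum_congr rfl fun i hi => ?_
    have hi' := mem_range.1 hi
    rw [cast_pow' (nat_mem _), pow_one]
    have a := nz hpN (i + 1) (by omega) (by omega)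
    have hpow := pow_2N hpN _ a
    have e : (((i + 1 : ℕ) : ℚ) : ZMod p) = ((i + 1 : ℕ) : ZMod p) := Rat.cast_natCast (i + 1)
    rw [e]
    apply eq_inv_of_mul_eq_one_left
    rw [← pow_succ, show 2 * N - 1 + 1 = 2 * N by omega, hpow]
  rw [e1] at hc
  rw [hc]
  refine sum_congr rfl fun i hi => ?_
  have hi' := mem_range.1 hi
  have hb := bern_mem hpN i (by omega)
  rw [div_eq_mul_inv, cast_mul' ((Rp p).mul_mem ((Rp p).mul_mem hb (nat_mem _))
      ((Rp p).pow_mem (nat_mem _) _)) (inv_mem a2N),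
    cast_mul' ((Rp p).mul_mem hb (nat_mem _)) ((Rp p).pow_mem (nat_mem _) _),
    cast_mul' hb (nat_mem _), cast_pow' (nat_mem _), cast_inv' a2N]
  have e2 : (((2 * N : ℕ) : ZMod p))⁻¹ = -1 := by
    have : ((2 * N : ℕ) : ZMod p) = -1 := by
      push_cast; linear_combination two_N hpN
    rw [this]; norm_num
  rw [e2]
  simp only [Rat.cast_natCast]

theorem T0_eq_bernoulli (hpN : p = 2 * N + 1) (hN : 2 ≤ N) :
    T0 p N = ((bernoulli (2 * N - 2) : ℚ) : ZMod p) := by
  have h1 : T0 p N = ∑ x ∈ range (2 * N), hs (ZMod p) 1 x * ((((x + 1 : ℕ) : ZMod p)) ^ 2)⁻¹ := by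
    have h3 := hs_total hpN 3 (by omega) (by omega)
    have : T0 p N = ∑ x ∈ range (2 * N), hs (ZMod p) 1 x * ((((x + 1 : ℕ) : ZMod p)) ^ 2)⁻¹
        + hs (ZMod p) 3 (2 * N) := by
      unfold T0
      rw [show hs (ZMod p) 3 (2 * N) = ∑ x ∈ range (2 * N), ((((x + 1 : ℕ) : ZMod p)) ^ 3)⁻¹ from
        rfl, ← sum_add_distrib]
      refine sum_congr rfl fun x hx => ?_
      have hx' := mem_range.1 hx
      rw [hs_succ, pow_one]
      have a := nz hpN (x + 1) (by omega) (by omega)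
      generalize ((x + 1 : ℕ) : ZMod p) = y at *
      field_simp
    rw [this, h3, add_zero]
  have h2 : ∀ x ∈ range (2 * N), hs (ZMod p) 1 x * ((((x + 1 : ℕ) : ZMod p)) ^ 2)⁻¹ =
      ∑ i ∈ range (2 * N), ((bernoulli i : ℚ) : ZMod p) *
      (((2 * N).choose i : ℕ) : ZMod p) * (-1) * ((x + 1 : ℕ) : ZMod p) ^ (4 * N - 2 - i) := by
    intro x hx
    have hx' := mem_range.1 hx
    have a := nz hpN (x + 1) (by omega) (by omega)
    have hpow := pow_2N hpN _ a
    rw [hs_faulhaber hpN hN x hx', sum_mul]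
    refine sum_congr rfl fun i hi => ?_
    have hi' := mem_range.1 hi
    have e : ((x + 1 : ℕ) : ZMod p) ^ (2 * N - i) * ((((x + 1 : ℕ) : ZMod p)) ^ 2)⁻¹ =
        ((x + 1 : ℕ) : ZMod p) ^ (4 * N - 2 - i) := by
      have e2 : ((x + 1 : ℕ) : ZMod p) ^ (4 * N - 2 - i) * ((x + 1 : ℕ) : ZMod p) ^ 2 =
          ((x + 1 : ℕ) : ZMod p) ^ (2 * N - i) := by
        rw [← pow_add, show 4 * N - 2 - i + 2 = (2 * N - i) + 2 * N by omega, pow_add, hpow,
          mul_one]
      rw [← e2]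
      field_simp
    rw [← e]
    ring
  rw [h1, sum_congr rfl h2, sum_comm]
  have h3 : ∀ i ∈ range (2 * N), ∑ x ∈ range (2 * N), ((bernoulli i : ℚ) : ZMod p) *
      (((2 * N).choose i : ℕ) : ZMod p) * (-1) * ((x + 1 : ℕ) : ZMod p) ^ (4 * N - 2 - i) =
      if i = 2 * N - 2 then ((bernoulli i : ℚ) : ZMod p) *
        (((2 * N).choose i : ℕ) : ZMod p) else 0 := by
    intro i hi
    have hi' := mem_range.1 hi
    rw [← mul_sum, sum_pow_range hpN]
    by_cases h : i = 2 * N - 2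
    · rw [if_pos h, if_pos ⟨1, by omega⟩]
      ring
    · rw [if_neg h, if_neg, mul_zero]
      rintro ⟨t, ht⟩
      have : t = 0 ∨ t = 1 ∨ 2 ≤ t := by omega
      rcases this with rfl | rfl | h2
      · omega
      · omega
      · have : 2 * N * 2 ≤ 2 * N * t := Nat.mul_le_mul_left _ h2
        omega
  rw [sum_congr rfl h3, sum_ite_eq' (range (2 * N)) (2 * N - 2), if_pos (mem_range.2 (by omega))]
  have e : (((2 * N).choose (2 * N - 2) : ℕ) : ZMod p) = 1 := by
    rw [Nat.choose_symm (by omega : 2 ≤ 2 * N)]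
    have h4 := choose_right_k (K := ZMod p) (2 * N) 1 (by omega)
    have h5 := two_N hpN
    have h6 := two_ne hpN hN
    rw [Nat.choose_one_right] at h4
    push_cast at h4
    apply mul_right_cancel₀ h6
    have h7 : ((1 : ZMod p) + 1) = 2 := by norm_num
    rw [h7] at h4
    rw [h4]
    linear_combination (2 * (N : ZMod p) - 2) * h5
  rw [e, mul_one]

end

end Pool.Agent.Helper10.SC
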