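import Mathlib

/-!
Exact identities over the rationals for the supercongruence MP_995bae_nt.
-/

open Finset

namespace Pool.Agent.Helper10.SC

/-- The summand of the auxiliary sum. -/
def om (N j : ℕ) : ℚ :=
  ((2 * N + 1) * (Nat.centralBinom N : ℚ)) ^ 2 * (-1) ^ j * ((2 * N + 1).choose j : ℚ) *
    ((N + j).choose j : ℚ) ^ 2

lemma centralBinom_succ_q (N : ℕ) :
    (N + 1) * (Nat.centralBinom (N + 1) : ℚ) = 2 * (2 * N + 1) * Nat.centralBinom N := by
  have h := Nat.succ_mul_centralBinom_succ N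
  have h' : ((N + 1 : ℕ) : ℚ) * (Nat.centralBinom (N + 1) : ℚ)
      = 2 * (2 * N + 1) * Nat.centralBinom N := by exact_mod_cast h
  push_cast at h'
  exact h'

lemma choose_up_q (n k : ℕ) (h : k ≤ n + 1) :
    ((n + 1).choose k : ℚ) * (n + 1 - k) = (n + 1) * (n.choose k : ℚ) := by
  have h1 := Nat.choose_mul_succ_eq n k
  have h3 : ((n.choose k * (n + 1) : ℕ) : ℚ) = (((n + 1).choose k * (n + 1 - k) : ℕ) : ℚ) := by
    rw [h1]
  rw [Nat.cast_mul, Nat.cast_mul, Nat.cast_sub (by omega)] at h3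
  push_cast at h3
  linarith

lemma choose_right_q (n k : ℕ) (h : k ≤ n) :
    (n.choose (k + 1) : ℚ) * (k + 1) = (n - k) * (n.choose k : ℚ) := by
  have h1 := Nat.choose_succ_right_eq n k
  have h3 : ((n.choose (k + 1) * (k + 1) : ℕ) : ℚ) = ((n.choose k * (n - k) : ℕ) : ℚ) := by
    rw [h1]
  rw [Nat.cast_mul, Nat.cast_mul, Nat.cast_sub h] at h3
  push_cast at h3
  linarith

/-- ratio in the direction of `N` -/
lemma om_succ_left (N j : ℕ) (h : j ≤ 2 * N + 1) :
    om (N + 1) j * ((N + 1) ^ 3 * (2 * N + 3 - j) * (2 * N + 2 - j)) =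
      om N j * (8 * (2 * N + 3) ^ 3 * (N + 1 + j) ^ 2) := by
  unfold om
  have e0 := centralBinom_succ_q N
  have e2 := choose_up_q (2 * N + 2) j (by omega)
  have e3 := choose_up_q (2 * N + 1) j (by omega)
  have e5 := choose_up_q (N + j) j (by omega)
  rw [show 2 * (N + 1) + 1 = 2 * N + 2 + 1 from rfl, show N + 1 + j = N + j + 1 by omega]
  rw [show 2 * N + 1 + 1 = 2 * N + 2 from rfl] at e3
  generalize (Nat.centralBinom (N + 1) : ℚ) = c' at *
  generalize (Nat.centralBinom N : ℚ) = c at *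
  generalize ((2 * N + 2 + 1).choose j : ℚ) = B at *
  generalize ((2 * N + 2).choose j : ℚ) = A1 at *
  generalize ((2 * N + 1).choose j : ℚ) = A at *
  generalize ((N + j + 1).choose j : ℚ) = E at *
  generalize ((N + j).choose j : ℚ) = D at *
  push_cast at *
  generalize hs : ((-1 : ℚ)) ^ j = s at *
  have h1 : ((N : ℚ) + 1) ≠ 0 := by positivity
  have e5' : E * ((N : ℚ) + 1) = (N + j + 1) * D := by linear_combination e5
  have key : ((2 * ((N : ℚ) + 1) + 1) * c') ^ 2 * s * B * E ^ 2 *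
      ((N + 1) ^ 3 * (2 * N + 3 - j) * (2 * N + 2 - j)) * (N + 1) =
      ((2 * N + 1) * c) ^ 2 * s * A * D ^ 2 * (8 * (2 * N + 3) ^ 3 * (N + 1 + j) ^ 2) * (N + 1) := by
    have : ((2 * ((N : ℚ) + 1) + 1) * c') ^ 2 * s * B * E ^ 2 *
      ((N + 1) ^ 3 * (2 * N + 3 - j) * (2 * N + 2 - j)) * (N + 1) =
      (2 * N + 3) ^ 2 * s * ((N + 1) * c') ^ 2 * (E * (N + 1)) ^ 2 *
        ((B * (2 * N + 2 + 1 - j)) * (2 * N + 1 + 1 - j)) := by ring
    rw [this, e0, e5', e2]
    have : (2 * (N : ℚ) + 3) ^ 2 * s * (2 * (2 * ↑N + 1) * c) ^ 2 * ((↑N + ↑j + 1) * D) ^ 2 *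
      ((2 * ↑N + 2 + 1) * A1 * (2 * ↑N + 1 + 1 - ↑j)) =
      (2 * (N : ℚ) + 3) ^ 2 * s * (2 * (2 * ↑N + 1) * c) ^ 2 * ((↑N + ↑j + 1) * D) ^ 2 *
      ((2 * ↑N + 2 + 1) * (A1 * (2 * ↑N + 1 + 1 - ↑j))) := by ring
    rw [this, e3]
    ring
  exact mul_right_cancel₀ h1 key

/-- ratio in the direction of `j` -/
lemma om_succ_right (N j : ℕ) (h : j ≤ 2 * N + 1) :
    om N (j + 1) * (j + 1) ^ 3 = om N j * (-(2 * N + 1 - j) * (N + 1 + j) ^ 2) := by
  unfold om
  have e1 := choose_right_q (2 * N + 1) j h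
  have e2 : ((N + (j + 1)).choose (j + 1) : ℚ) * (j + 1) = (N + j + 1) * ((N + j).choose j : ℚ) := by
    have := Nat.add_one_mul_choose_eq (N + j) j
    have h3 : (((N + j + 1) * (N + j).choose j : ℕ) : ℚ)
        = (((N + j + 1).choose (j + 1) * (j + 1) : ℕ) : ℚ) := by rw [this]
    push_cast at h3
    rw [show N + (j + 1) = N + j + 1 from rfl]
    linarith
  generalize (Nat.centralBinom N : ℚ) = c at *
  generalize ((2 * N + 1).choose j : ℚ) = A at *
  generalize ((2 * N + 1).choose (j + 1) : ℚ) = A1 at *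
  generalize ((N + (j + 1)).choose (j + 1) : ℚ) = E at *
  generalize ((N + j).choose j : ℚ) = D at *
  push_cast at *
  have : ((2 * (N : ℚ) + 1) * c) ^ 2 * (-1) ^ (j + 1) * A1 * E ^ 2 * (↑j + 1) ^ 3 =
    ((2 * (N : ℚ) + 1) * c) ^ 2 * (-1) ^ (j + 1) * (A1 * (j + 1)) * (E * (j + 1)) ^ 2 := by ring
  rw [this, e1, e2]
  ring

lemma om_partial (N m : ℕ) (h : m ≤ N) :
    (∑ j ∈ range (m + 1), (om (N + 1) j - om N j)) * ((N + 1) ^ 3 * (2 * N + 2 - m)) =
      om N m * ((N + m + 1) ^ 2 * ((21 * N + 29) * (m + 1) + (N + 1) * (30 * N + 41))) := by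
  induction m with
  | zero =>
    simp only [zero_add, range_one, sum_singleton]
    have h0 := om_succ_left N 0 (by omega)
    have h2 : (2 * (N : ℚ) + 3) ≠ 0 := by positivity
    push_cast at *
    simp only [sub_zero, add_zero, zero_add, mul_one] at *
    apply mul_right_cancel₀ h2
    linear_combination h0
  | succ m ih =>
    rw [sum_range_succ]
    have ih := ih (by omega)
    have e1 := om_succ_left N (m + 1) (by omega)
    have e2 := om_succ_right N m (by omega)
    have hm : (m : ℚ) + 1 ≤ N := by exact_mod_cast h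
    have hN : (0 : ℚ) ≤ N := by positivity
    have h2 : ((m : ℚ) + 1) ≠ 0 := by positivity
    have h3 : (2 * (N : ℚ) + 2 - m) ≠ 0 := by intro h5; linarith
    generalize (∑ j ∈ range (m + 1), (om (N + 1) j - om N j)) = S at *
    generalize om (N + 1) (m + 1) = x at *
    generalize om N (m + 1) = y at *
    generalize om N m = z at *
    push_cast at *
    apply mul_right_cancel₀ (mul_ne_zero (pow_ne_zero 3 h2) h3)
    linear_combination (2 * (N : ℚ) + 2 - (m + 1)) * (m + 1) ^ 3 * ih + (m + 1) ^ 3 * e1 +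
      (8 * (2 * (N : ℚ) + 3) ^ 3 * (N + 1 + (m + 1)) ^ 2
        - (N + 1) ^ 3 * (2 * N + 2 - (m + 1)) * (2 * N + 2 - m)
        - (2 * (N : ℚ) + 2 - m) * ((N + (m + 1) + 1) ^ 2 *
          ((21 * N + 29) * ((m + 1) + 1) + (N + 1) * (30 * N + 41)))) * e2

lemma om_diag (N : ℕ) :
    om N N * (N + 1) = (-1) ^ N * (2 * N + 1) ^ 3 * (Nat.centralBinom N : ℚ) ^ 5 := by
  unfold om
  have e1 : ((2 * N + 1).choose N : ℚ) * (N + 1) = (2 * N + 1) * (Nat.centralBinom N : ℚ) := by
    have := choose_up_q (2 * N) N (by omega)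
    rw [Nat.centralBinom_eq_two_mul_choose]
    push_cast at this
    linear_combination this
  have e2 : ((N + N).choose N : ℚ) = (Nat.centralBinom N : ℚ) := by
    rw [Nat.centralBinom_eq_two_mul_choose, two_mul]
  rw [e2]
  linear_combination ((2 * (N : ℚ) + 1) * (Nat.centralBinom N : ℚ)) ^ 2 * (-1) ^ N *
    (Nat.centralBinom N : ℚ) ^ 2 * e1

/-- The main exact identity. -/
theorem main_identity (N : ℕ) :
    ∑ n ∈ range (N + 1), (205 * (n : ℚ) ^ 2 + 160 * n + 32) * (-1) ^ n *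
        (Nat.centralBinom n : ℚ) ^ 5 = 32 * ∑ j ∈ range (N + 1), om N j := by
  induction N with
  | zero => simp [om]
  | succ N ih =>
    rw [sum_range_succ, ih]
    have h1 := om_partial N N le_rfl
    have h2 := om_diag N
    have h3 := om_diag (N + 1)
    have h4 := centralBinom_succ_q N
    rw [sum_range_succ (fun j => om (N + 1) j)]
    rw [sum_sub_distrib] at h1
    generalize ∑ j ∈ range (N + 1), om (N + 1) j = S1 at *
    generalize ∑ j ∈ range (N + 1), om N j = S0 at *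
    generalize om (N + 1) (N + 1) = x at *
    generalize om N N = y at *
    generalize (Nat.centralBinom (N + 1) : ℚ) = c' at *
    have hN : ((N : ℚ) + 1) ≠ 0 := by positivity
    have hN2 : ((N : ℚ) + 2) ≠ 0 := by positivity
    have hN3 : (2 * (N : ℚ) + 1) ≠ 0 := by positivity
    have hc : (Nat.centralBinom N : ℚ) = (N + 1) * c' / (2 * (2 * N + 1)) := by
      field_simp
      linear_combination -h4
    rw [hc] at h2
    push_cast at *
    have hx : x = (-1) ^ (N + 1) * (2 * (↑N + 1) + 1) ^ 3 * c' ^ 5 / (N + 2) := by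
      field_simp
      linear_combination h3
    have hy : y = (-1) ^ N * (2 * ↑N + 1) ^ 3 * ((↑N + 1) * c' / (2 * (2 * ↑N + 1))) ^ 5
        / (N + 1) := by
      field_simp
      field_simp at h2
      linear_combination h2
    have hS : S1 = S0 + y * ((2 * N + 1) ^ 2 * (51 * N + 70)) / ((N + 1) ^ 2 * (N + 2)) := by
      field_simp
      apply mul_right_cancel₀ hN
      linear_combination h1
    rw [hS, hx, hy]
    field_simp
    ring

end Pool.Agent.Helper10.SC
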