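import Mathlib
import Pool.Agent.Helper10.SC.Bern
import Pool.Agent.Helper10.SC.Ident

/-!
Assembly of the supercongruence.
-/

open Finset Polynomial

namespace Pool.Agent.Helper10.SC

section
variable {p : ℕ} [hp : Fact p.Prime] {N : ℕ}

/-- the summand of `W` -/
def tt (N j : ℕ) : ℚ := (-1) ^ j * ((2 * N + 1).choose j : ℚ) * ((N + j).choose j : ℚ) ^ 2

lemma om_eq (N j : ℕ) : om N j = ((2 * N + 1) * (Nat.centralBinom N : ℚ)) ^ 2 * tt N j := by
  unfold om tt; ring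

lemma fact_mul_choose (N j : ℕ) :
    (N.factorial : ℚ) * ((N + j).choose j : ℚ) = ∏ i ∈ range N, ((j + i + 1 : ℕ) : ℚ) := by
  rw [prod_up (K := ℚ) j N, Nat.add_comm N j, Nat.choose_symm_add]

lemma alt_sum_zero (N : ℕ) : ∑ j ∈ range (2 * N + 2), tt N j = 0 := by
  set P : ℚ[X] := (QQ ℚ (range N)) ^ 2 with hP
  have hdeg : P.natDegree < 2 * N + 1 := by
    rw [hP]
    refine lt_of_le_of_lt natDegree_pow_le ?_
    rw [QQ_natDegree, card_range]
    omega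
  have h := Polynomial.fwdDiff_iter_eq_zero_of_degree_lt hdeg
  have h2 := congrFun h 0
  rw [fwdDiff_iter_eq_sum_shift] at h2
  have e : ∀ k ∈ range (2 * N + 1 + 1), ((-1 : ℤ) ^ (2 * N + 1 - k) * ((2 * N + 1).choose k : ℤ)) •
      P.eval ((0 : ℚ) + k • (1 : ℚ)) = -(N.factorial : ℚ) ^ 2 * tt N k := by
    intro k hk
    have hk' := mem_range.1 hk
    have e1 : P.eval ((0 : ℚ) + k • (1 : ℚ)) = (N.factorial : ℚ) ^ 2 *
        ((N + k).choose k : ℚ) ^ 2 := by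
      rw [← mul_pow, fact_mul_choose, hP, eval_pow, QQ_eval]
      congr 1
      refine prod_congr rfl fun i _ => ?_
      simp only [nsmul_eq_mul]
      push_cast
      ring
    have e2 : ((-1 : ℚ)) ^ (2 * N + 1 - k) = -((-1 : ℚ) ^ k) := by
      have h3 : ((-1 : ℚ)) ^ (2 * N + 1 - k) * (-1) ^ k = -1 := by
        rw [← pow_add, Nat.sub_add_cancel (by omega), pow_succ, pow_mul]
        norm_num
      have h4 : ((-1 : ℚ) ^ k) * (-1) ^ k = 1 := by
        rw [← mul_pow]; norm_num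
      calc ((-1 : ℚ)) ^ (2 * N + 1 - k) = ((-1 : ℚ)) ^ (2 * N + 1 - k) * ((-1) ^ k * (-1) ^ k) := by
            rw [h4, mul_one]
        _ = -((-1 : ℚ) ^ k) := by rw [← mul_assoc, h3]; ring
    rw [e1, zsmul_eq_mul]
    push_cast
    rw [e2]
    unfold tt
    ring
  rw [sum_congr rfl e, ← mul_sum] at h2
  have hf : (N.factorial : ℚ) ≠ 0 := by exact_mod_cast Nat.factorial_ne_zero N
  have h3 := (mul_eq_zero.1 h2).resolve_left (by
    simp [hf])
  exact h3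

omit hp in
lemma W_eq (hpN : p = 2 * N + 1) :
    ∑ j ∈ range (N + 1), tt N j = ((N + p).choose p : ℚ) ^ 2 -
      ∑ l ∈ range N, tt N (p - (l + 1)) := by
  have h := alt_sum_zero N
  rw [sum_range_succ, show 2 * N + 1 = (N + 1) + N by ring, sum_range_add,
    ← sum_range_reflect (fun x => tt N (N + 1 + x))] at h
  have e1 : tt N (N + 1 + N) = -((N + p).choose p : ℚ) ^ 2 := by
    unfold tt
    rw [show N + 1 + N = 2 * N + 1 by ring, hpN, Nat.choose_self, pow_succ, pow_mul]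
    norm_num
  have e2 : ∑ j ∈ range N, tt N (N + 1 + (N - 1 - j)) = ∑ l ∈ range N, tt N (p - (l + 1)) := by
    refine sum_congr rfl fun l hl => ?_
    have hl' := mem_range.1 hl
    congr 1
    omega
  rw [e1, e2] at h
  linarith

/-- product without the factor `p` -/
def AA (p N l : ℕ) : ℚ := ∏ j ∈ (range N).erase l, ((p - (l + 1) + j + 1 : ℕ) : ℚ)

lemma AA_mem (l : ℕ) : AA p N l ∈ Rp p := (Rp p).prod_mem fun _ _ => nat_mem _

lemma cast_prod' {ι : Type*} {s : Finset ι} {f : ι → ℚ} (h : ∀ i ∈ s, f i ∈ Rp p) :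
    ((∏ i ∈ s, f i : ℚ) : ZMod p) = ∏ i ∈ s, ((f i : ℚ) : ZMod p) := by
  classical
  induction s using Finset.induction_on with
  | empty => simp
  | insert a s ha ih =>
    rw [prod_insert ha, prod_insert ha, cast_mul' (h a (mem_insert_self _ _))
      ((Rp p).prod_mem fun i hi => h i (mem_insert_of_mem hi)),
      ih fun i hi => h i (mem_insert_of_mem hi)]

lemma AA_cast (hpN : p = 2 * N + 1) (l : ℕ) (hl : l < N) :
    ((AA p N l : ℚ) : ZMod p) = yy p N l := by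
  unfold AA yy
  rw [cast_prod' fun _ _ => nat_mem _]
  refine prod_congr rfl fun j _ => ?_
  rw [Rat.cast_natCast, add_assoc, Nat.cast_add, Nat.cast_sub (by omega), ZMod.natCast_self]
  ring

omit hp in
lemma term_eq (hpN : p = 2 * N + 1) (l : ℕ) (hl : l < N) :
    tt N (p - (l + 1)) = (p : ℚ) ^ 3 * ((-1) ^ l * ((2 * N).choose l : ℚ) *
      (((l + 1 : ℕ) : ℚ))⁻¹ * (((N.factorial : ℕ) : ℚ)⁻¹ * AA p N l) ^ 2) := by
  have hf : ((N.factorial : ℕ) : ℚ) ≠ 0 := by exact_mod_cast Nat.factorial_ne_zero N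
  have e1 : ((N + (p - (l + 1))).choose (p - (l + 1)) : ℚ) =
      ((N.factorial : ℕ) : ℚ)⁻¹ * (p * AA p N l) := by
    have h := fact_mul_choose N (p - (l + 1))
    have h2 := mul_prod_erase (range N) (fun i => ((p - (l + 1) + i + 1 : ℕ) : ℚ))
      (mem_range.2 hl)
    rw [← h2] at h
    have h3 : ((p - (l + 1) + l + 1 : ℕ) : ℚ) = p := by
      congr 1
      omega
    rw [h3] at h
    rw [AA, ← h]
    field_simp
  have e2 : ((2 * N + 1).choose (p - (l + 1)) : ℚ) = p * ((2 * N).choose l : ℚ) *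
      (((l + 1 : ℕ) : ℚ))⁻¹ := by
    rw [show p - (l + 1) = 2 * N + 1 - (l + 1) by omega, Nat.choose_symm (by omega)]
    have := Nat.add_one_mul_choose_eq (2 * N) l
    have h3 : (((2 * N + 1) * (2 * N).choose l : ℕ) : ℚ)
        = (((2 * N + 1).choose (l + 1) * (l + 1) : ℕ) : ℚ) := by rw [this]
    have a : (((l + 1 : ℕ) : ℚ)) ≠ 0 := by positivity
    rw [eq_mul_inv_iff_mul_eq₀ a, hpN]
    push_cast at *
    linear_combination -h3
  have e3 : (-1 : ℚ) ^ (p - (l + 1)) = (-1) ^ l := by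
    have h3 : ((-1 : ℚ)) ^ (p - (l + 1)) * (-1) ^ l = 1 := by
      rw [← pow_add, show p - (l + 1) + l = 2 * N by omega, pow_mul]
      norm_num
    have h4 : ((-1 : ℚ) ^ l) * (-1) ^ l = 1 := by
      rw [← mul_pow]; norm_num
    calc (-1 : ℚ) ^ (p - (l + 1)) = (-1 : ℚ) ^ (p - (l + 1)) * ((-1) ^ l * (-1) ^ l) := by
          rw [h4, mul_one]
      _ = (-1) ^ l := by rw [← mul_assoc, h3]; ring
  unfold tt
  rw [e1, e2, e3]
  ring

omit hp in
lemma prod_eq (hpN : p = 2 * N + 1) :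
    (Nat.centralBinom N : ℚ) * ((N + p).choose p : ℚ) =
      (-1) ^ N * ∏ i ∈ range N, (1 + (-((p : ℚ) ^ 2 * ((((i + 1 : ℕ) : ℚ)) ^ 2)⁻¹))) := by
  have hf : ((N.factorial : ℕ) : ℚ) ≠ 0 := by exact_mod_cast Nat.factorial_ne_zero N
  have h1 := prod_down (K := ℚ) (2 * N) N
  have h2 := fact_mul_choose N p
  rw [← Nat.centralBinom_eq_two_mul_choose] at h1
  have h3 : ∏ i ∈ range N, ((i + 1 : ℕ) : ℚ) = (N.factorial : ℚ) := by
    rw [← Nat.cast_prod, prod_range_add_one_eq_factorial]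
  have h4 : ((N.factorial : ℕ) : ℚ) ^ 2 * ((Nat.centralBinom N : ℚ) * ((N + p).choose p : ℚ)) =
      ((N.factorial : ℕ) : ℚ) ^ 2 * ((-1) ^ N *
        ∏ i ∈ range N, (1 + (-((p : ℚ) ^ 2 * ((((i + 1 : ℕ) : ℚ)) ^ 2)⁻¹)))) := by
    have : ((N.factorial : ℕ) : ℚ) ^ 2 * ((Nat.centralBinom N : ℚ) * ((N + p).choose p : ℚ)) =
      (((N.factorial : ℕ) : ℚ) * (Nat.centralBinom N : ℚ)) *
      (((N.factorial : ℕ) : ℚ) * ((N + p).choose p : ℚ)) := by ring
    rw [this, ← h1, h2, ← h3]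
    have e : ∏ i ∈ range N, (-1 : ℚ) = (-1) ^ N := by simp
    rw [← e, ← prod_mul_distrib, ← prod_mul_distrib, ← prod_pow, ← prod_mul_distrib]
    refine prod_congr rfl fun i hi => ?_
    have hp' : (p : ℚ) = 2 * N + 1 := by rw [hpN]; push_cast; ring
    have a : ((i : ℚ) + 1) ≠ 0 := by positivity
    push_cast
    rw [hp']
    field_simp
    ring
  exact mul_left_cancel₀ (pow_ne_zero 2 hf) h4

lemma choose_cast (hpN : p = 2 * N + 1) (k : ℕ) (hk : k ≤ 2 * N) :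
    (((2 * N).choose k : ℕ) : ZMod p) = (-1) ^ k := by
  have h1 := prod_down (K := ZMod p) (2 * N) k
  have h2 : ∏ i ∈ range k, (((2 * N : ℕ) : ZMod p) - (i : ZMod p)) =
      (-1) ^ k * (k.factorial : ZMod p) := by
    rw [← prod_range_add_one_eq_factorial, Nat.cast_prod]
    have e : ∏ i ∈ range k, (-1 : ZMod p) = (-1) ^ k := by simp
    rw [← e, ← prod_mul_distrib]
    refine prod_congr rfl fun i hi => ?_
    push_cast
    linear_combination two_N hpN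
  rw [h2] at h1
  have hf := fact_ne hpN k hk
  apply mul_left_cancel₀ hf
  rw [← h1]
  ring

/-- the `p`-integral factor -/
def Yq (p N : ℕ) : ℚ := ∑ l ∈ range N, (Nat.centralBinom N : ℚ) ^ 2 *
  ((-1) ^ l * ((2 * N).choose l : ℚ) *
      (((l + 1 : ℕ) : ℚ))⁻¹ * (((N.factorial : ℕ) : ℚ)⁻¹ * AA p N l) ^ 2)

lemma neg_one_mem : (-1 : ℚ) ∈ Rp p := (Rp p).neg_mem (Rp p).one_mem

lemma Yq_term_mem (hpN : p = 2 * N + 1) (l : ℕ) (hl : l < N) : (Nat.centralBinom N : ℚ) ^ 2 *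
  ((-1) ^ l * ((2 * N).choose l : ℚ) *
      (((l + 1 : ℕ) : ℚ))⁻¹ * (((N.factorial : ℕ) : ℚ)⁻¹ * AA p N l) ^ 2) ∈ Rp p := by
  have a1 := nz hpN (l + 1) (by omega) (by omega)
  have a2 := fact_ne hpN N (by omega)
  refine (Rp p).mul_mem ((Rp p).pow_mem (nat_mem _) _) ((Rp p).mul_mem ((Rp p).mul_mem
    ((Rp p).mul_mem ((Rp p).pow_mem neg_one_mem _) (nat_mem _)) (inv_mem a1)) ?_)
  exact (Rp p).pow_mem ((Rp p).mul_mem (inv_mem a2) (AA_mem l)) _

lemma Yq_mem (hpN : p = 2 * N + 1) : Yq p N ∈ Rp p :=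
  (Rp p).sum_mem fun l hl => Yq_term_mem hpN l (mem_range.1 hl)

lemma Yq_cast (hpN : p = 2 * N + 1) : ((Yq p N : ℚ) : ZMod p) = YY p N := by
  unfold Yq YY
  rw [cast_sum' fun l hl => Yq_term_mem hpN l (mem_range.1 hl)]
  refine sum_congr rfl fun l hl => ?_
  have hl' := mem_range.1 hl
  have a1 := nz hpN (l + 1) (by omega) (by omega)
  have a2 := fact_ne hpN N (by omega)
  have m1 : (-1 : ℚ) ^ l ∈ Rp p := (Rp p).pow_mem neg_one_mem _
  have m2 : ((2 * N).choose l : ℚ) ∈ Rp p := nat_mem _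
  have m3 := inv_mem a1
  have m4 : (((N.factorial : ℕ) : ℚ)⁻¹ * AA p N l) ∈ Rp p :=
    (Rp p).mul_mem (inv_mem a2) (AA_mem l)
  rw [cast_mul' ((Rp p).pow_mem (nat_mem _) _) ((Rp p).mul_mem ((Rp p).mul_mem
    ((Rp p).mul_mem m1 m2) m3) ((Rp p).pow_mem m4 _)),
    cast_mul' ((Rp p).mul_mem ((Rp p).mul_mem m1 m2) m3) ((Rp p).pow_mem m4 _),
    cast_mul' ((Rp p).mul_mem m1 m2) m3, cast_mul' m1 m2, cast_pow' m4,
    cast_mul' (inv_mem a2) (AA_mem l), cast_inv' a1, cast_inv' a2, AA_cast hpN l hl',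
    cast_pow' (nat_mem _), cast_pow' neg_one_mem, cast_neg']
  rw [Rat.cast_natCast, Rat.cast_natCast, choose_cast hpN l (by omega),
    Nat.centralBinom_eq_two_mul_choose, choose_cast hpN N (by omega), Rat.cast_one]
  have e1 : ((-1 : ZMod p) ^ N) ^ 2 = 1 := by rw [← pow_mul, mul_comm, pow_mul]; norm_num
  have e2 : ((-1 : ZMod p) ^ l) * (-1) ^ l = 1 := by rw [← mul_pow]; norm_num
  rw [e1, e2]
  ring

/-- the value of the normalized sum modulo `p^4` -/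
lemma V_expand (hpN : p = 2 * N + 1) :
    I p 4 ((Nat.centralBinom N : ℚ) ^ 2 * (∑ j ∈ range (N + 1), tt N j) -
      (1 - 2 * (p : ℚ) ^ 2 * hs ℚ 2 N - (p : ℚ) ^ 3 * Yq p N)) := by
  have hY : (Nat.centralBinom N : ℚ) ^ 2 * (∑ l ∈ range N, tt N (p - (l + 1))) =
      (p : ℚ) ^ 3 * Yq p N := by
    unfold Yq
    rw [mul_sum, mul_sum]
    refine sum_congr rfl fun l hl => ?_
    rw [term_eq hpN l (mem_range.1 hl)]
    ring
  set u : ℚ := ∏ i ∈ range N, (1 + (-((p : ℚ) ^ 2 * ((((i + 1 : ℕ) : ℚ)) ^ 2)⁻¹))) with hu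
  have h1 : (Nat.centralBinom N : ℚ) ^ 2 * ((N + p).choose p : ℚ) ^ 2 = u ^ 2 := by
    have e1 : ((-1 : ℚ) ^ N) ^ 2 = 1 := by rw [← pow_mul, mul_comm, pow_mul]; norm_num
    rw [← mul_pow, prod_eq hpN, mul_pow, e1, one_mul]
  have hmem : ∀ i ∈ range N, I p 2 (-((p : ℚ) ^ 2 * ((((i + 1 : ℕ) : ℚ)) ^ 2)⁻¹)) := by
    intro i hi
    have hi' := mem_range.1 hi
    refine (I_pow_mul ?_).neg
    rw [← inv_pow]
    exact (Rp p).pow_mem (inv_mem (nz hpN (i + 1) (by omega) (by omega))) _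
  have h2 := prod_one_add (p := p) (range N)
    (fun i => (-((p : ℚ) ^ 2 * ((((i + 1 : ℕ) : ℚ)) ^ 2)⁻¹))) 2 hmem
  have h3 : ∑ i ∈ range N, (-((p : ℚ) ^ 2 * ((((i + 1 : ℕ) : ℚ)) ^ 2)⁻¹)) =
      -((p : ℚ) ^ 2 * hs ℚ 2 N) := by
    rw [sum_neg_distrib, ← mul_sum]; rfl
  rw [h3] at h2
  change I p 4 (u - (1 + -((p : ℚ) ^ 2 * hs ℚ 2 N))) at h2
  set e : ℚ := u - (1 + -((p : ℚ) ^ 2 * hs ℚ 2 N)) with he
  have hH := hsq_mem (p := p) hpN 2 N (by omega)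
  have hP : I p 2 ((p : ℚ) ^ 2 * hs ℚ 2 N) := I_pow_mul hH
  have h5 : (Nat.centralBinom N : ℚ) ^ 2 * (∑ j ∈ range (N + 1), tt N j) -
      (1 - 2 * (p : ℚ) ^ 2 * hs ℚ 2 N - (p : ℚ) ^ 3 * Yq p N) =
      e * (u + (1 - (p : ℚ) ^ 2 * hs ℚ 2 N)) +
        ((p : ℚ) ^ 2 * hs ℚ 2 N) * ((p : ℚ) ^ 2 * hs ℚ 2 N) := by
    rw [W_eq hpN, mul_sub, hY, h1, he]
    ring
  rw [h5]
  refine (h2.mul_mem ?_).add (hP.mul hP)
  refine (Rp p).add_mem ?_ ((Rp p).sub_mem (Rp p).one_mem hP.mem)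
  rw [hu]
  exact (Rp p).prod_mem fun i hi => (Rp p).add_mem (Rp p).one_mem (hmem i hi).mem

/-- the main congruence -/
theorem main_congr (hpN : p = 2 * N + 1) (hN : 2 ≤ N) :
    I p 6 ((∑ n ∈ range (N + 1), (205 * (n : ℚ) ^ 2 + 160 * n + 32) * (-1) ^ n *
        (Nat.centralBinom n : ℚ) ^ 5) -
      (32 * (p : ℚ) ^ 2 + 896 / 3 * (p : ℚ) ^ 5 * _root_.bernoulli (p - 3))) := by
  set B := _root_.bernoulli (p - 3) with hB
  have hBe : p - 3 = 2 * N - 2 := by omega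
  have hBm : B ∈ Rp p := by rw [hB, hBe]; exact bern_mem hpN _ (by omega)
  have hBc : ((B : ℚ) : ZMod p) = T0 p N := by
    rw [hB, hBe]; exact (T0_eq_bernoulli hpN hN).symm
  set V : ℚ := (Nat.centralBinom N : ℚ) ^ 2 * (∑ j ∈ range (N + 1), tt N j) with hV
  have hS : (∑ n ∈ range (N + 1), (205 * (n : ℚ) ^ 2 + 160 * n + 32) * (-1) ^ n *
        (Nat.centralBinom n : ℚ) ^ 5) = 32 * (p : ℚ) ^ 2 * V := by
    rw [main_identity, hV]
    have : ∀ j ∈ range (N + 1), om N j =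
        ((2 * N + 1) * (Nat.centralBinom N : ℚ)) ^ 2 * tt N j := fun j _ => om_eq N j
    rw [sum_congr rfl this, ← mul_sum]
    have hp' : (p : ℚ) = 2 * N + 1 := by rw [hpN]; push_cast; ring
    rw [hp']
    ring
  rw [hS]
  have h1 := V_expand (p := p) hpN
  rw [← hV] at h1
  have h2 := H2_half (p := p) hpN
  have m3 := hsq_mem (p := p) hpN 3 N (by omega)
  have mY := Yq_mem (p := p) hpN
  have n2 : ((2 : ℕ) : ZMod p) ≠ 0 := nz hpN 2 (by omega) (by omega)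
  have n3 : ((3 : ℕ) : ZMod p) ≠ 0 := nz hpN 3 (by omega) (by omega)
  have i3 : ((3 : ℚ))⁻¹ ∈ Rp p := by exact_mod_cast inv_mem n3
  -- combine
  have h3 : I p 4 ((p : ℚ) ^ 2 * ((3 : ℚ)⁻¹ * (6 * hs ℚ 2 N + 7 * p * hs ℚ 3 N))) := by
    have := (h2.mem_mul i3)
    have h := (I_pow (p := p) 2).mul this
    exact h
  have h4 : I p 4 (V - (1 + (p : ℚ) ^ 3 * (7 / 3 * hs ℚ 3 N - Yq p N))) := by
    have := h1.sub h3
    convert this using 1
    ring
  set c : ℚ := 7 / 3 * hs ℚ 3 N - Yq p N - 28 / 3 * B with hc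
  have m73 : (7 / 3 : ℚ) ∈ Rp p := by
    rw [div_eq_mul_inv]; exact (Rp p).mul_mem (by exact_mod_cast nat_mem (p := p) 7) i3
  have m283 : (28 / 3 : ℚ) ∈ Rp p := by
    rw [div_eq_mul_inv]; exact (Rp p).mul_mem (by exact_mod_cast nat_mem (p := p) 28) i3
  have hcm : c ∈ Rp p :=
    (Rp p).sub_mem ((Rp p).sub_mem ((Rp p).mul_mem m73 m3) mY) ((Rp p).mul_mem m283 hBm)
  have hc1 : I p 1 c := by
    rw [I_one_iff hcm, hc, cast_sub' ((Rp p).sub_mem ((Rp p).mul_mem m73 m3) mY)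
      ((Rp p).mul_mem m283 hBm), cast_sub' ((Rp p).mul_mem m73 m3) mY, cast_mul' m73 m3,
      cast_mul' m283 hBm, hBc, Yq_cast hpN, hsq_cast hpN 3 N (by omega), Y_eval hpN hN,
      H3_half hpN hN]
    have c73 : ((7 / 3 : ℚ) : ZMod p) = 7 * ((3 : ℕ) : ZMod p)⁻¹ := by
      rw [div_eq_mul_inv, cast_mul' (by exact_mod_cast nat_mem (p := p) 7) i3]
      congr 1
      · exact_mod_cast Rat.cast_natCast (α := ZMod p) 7
      · exact_mod_cast cast_inv' n3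
    have c283 : ((28 / 3 : ℚ) : ZMod p) = 28 * ((3 : ℕ) : ZMod p)⁻¹ := by
      rw [div_eq_mul_inv, cast_mul' (by exact_mod_cast nat_mem (p := p) 28) i3]
      congr 1
      · exact_mod_cast Rat.cast_natCast (α := ZMod p) 28
      · exact_mod_cast cast_inv' n3
    rw [c73, c283]
    have n3' : (3 : ZMod p) ≠ 0 := by exact_mod_cast n3
    push_cast
    field_simp
    ring
  have h5 : I p 4 (V - (1 + 28 / 3 * (p : ℚ) ^ 3 * B)) := by
    have h6 : I p 4 ((p : ℚ) ^ 3 * c) := (I_pow (p := p) 3).mul hc1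
    have := h4.add h6
    convert this using 1
    rw [hc]
    ring
  have h7 : I p 6 ((p : ℚ) ^ 2 * (32 * (V - (1 + 28 / 3 * (p : ℚ) ^ 3 * B)))) :=
    (I_pow (p := p) 2).mul (h5.mem_mul (by exact_mod_cast nat_mem (p := p) 32))
  convert h7 using 1
  ring

end

end Pool.Agent.Helper10.SC
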